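import Pool.Agent.Helper94.NX2.LowCore
import Pool.Agent.Helper52.NX2.ArTop

/-!
# NX2-A31, the lower functions
-/

set_option autoImplicit false

open Finset
open scoped BigOperators ComplexConjugate

namespace Pool.Agent.Helper67.NX2

open Pool.Agent.Helper57.NX

noncomputable section

/-- the lower functions (natural top exponent) -/
theorem low_arith (m : ℕ) (c : Fin (m + 1) → ℝ) (hc : Ex c) (d : ℕ)
    (hd : c (Fin.last m) = d) (s : ℝ) (hs0 : 0 < s) (hs : s < 1)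
    (hT : ∀ ε : ℝ, 0 < ε → TopPm m c s ε)
    (hdag : ∀ κ : ℝ, 0 < κ → ∃ x0 : ℝ, 0 < x0 ∧ ∃ C : ℕ, ∃ σ : ℝ, 0 < σ ∧ ∃ D0 : ℝ,
      ∀ (S : Sys (m + 1)) (N : ℕ) [NeZero N] (lam : ℕ), D0 ≤ S.D → IG S c N x0 lam →
      ∀ δ : ℝ, S.D ^ (-σ) ≤ δ → δ ≤ 1 / 2 → (lam : ℝ) ≤ δ⁻¹ →
      ∀ (f0 : ZMod N → ℂ) (f : Fin (m + 1) → ZMod N → ℂ),
      Adm δ⁻¹ S.Q f0 → (∀ i, Adm δ⁻¹ S.Q (f i)) → δ ≤ ‖form S c 1 f0 f‖ →
      ∃ q : ℕ, 1 ≤ q ∧ (q : ℝ) ≤ δ⁻¹ ^ C ∧ ∀ L : ℕ, 1 ≤ L → (L : ℝ) ≤ S.D ^ (s - κ) →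
        δ ^ C ≤ nrm (Aq (S.Q * q) L (dual S c 1 f0 f (Fin.last m))))
    (hU : ∀ ε : ℝ, 0 < ε → UPm m (fun i => c i.castSucc) ε) :
    ∀ ε : ℝ, 0 < ε → UsJ m c 0 ε (univ.erase (Fin.last m)) := by
  refine Low94.low_core m c hc d hd s hs0 (fun ε hε => ?_) hdag hU
  have h2 := hc.two (Fin.last m)
  rw [hd] at h2
  exact ar_top m c hc d hd s hs0 (by linarith) hT ε hε

end

end Pool.Agent.Helper67.NX2
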