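import Pool.Agent.Helper5.NX.PhiBasics
import Pool.Agent.Helper84.NX.LForm
import Pool.Agent.Helper81.NX.Types
import Pool.Agent.Helper5.NX.Basic
import Pool.Agent.Helper65.NX.Pet
import Pool.Agent.Helper67.NX2.Defs

/-!
# NX2-A19: one PET round with the filtration (variant of helper45's NX-25)
-/

set_option autoImplicit false

open Finset
open scoped BigOperators ComplexConjugate

namespace Pool.Agent.Helper67.NX2

open Pool.Agent.Helper57.NX

noncomputable section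

/-! ### monotonicity -/

private theorem r94_pow_anti {δ : ℝ} (h0 : 0 < δ) (h1 : δ ≤ 1 / 2) {a b : ℕ} (h : a ≤ b) :
    δ ^ b ≤ δ ^ a := pow_le_pow_of_le_one h0.le (by linarith) h

private theorem r94_inv_one {δ : ℝ} (h0 : 0 < δ) (h1 : δ ≤ 1 / 2) : 2 ≤ δ⁻¹ := by
  rw [le_inv_comm₀ (by norm_num) h0]; linarith

private theorem r94_pow_inv_mono {δ : ℝ} (h0 : 0 < δ) (h1 : δ ≤ 1 / 2) {a b : ℕ} (h : a ≤ b) :
    δ⁻¹ ^ a ≤ δ⁻¹ ^ b := pow_le_pow_right₀ (by linarith [r94_inv_one h0 h1]) h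

private theorem r94_Env_mono {m N M R n n' : ℕ} {S : Sys m} {δ w : ℝ} (h : Env S N δ M R w n')
    (hn : n ≤ n') : Env S N δ M R w n where
  ρ0 := h.ρ0
  ρ1 := h.ρ1
  D1 := h.D1
  δ0 := h.δ0
  δ1 := h.δ1
  u1 := h.u1
  u2 := h.u2
  MT := h.MT.trans (mul_le_mul_of_nonneg_right (r94_pow_anti h.δ0 h.δ1 hn) (Nat.cast_nonneg _))
  M1 := (r94_pow_inv_mono h.δ0 h.δ1 hn).trans h.M1
  MD := h.MD
  w1 := h.w1.trans (r94_pow_anti h.δ0 h.δ1 hn)
  P0 := h.P0
  PR := h.PR
  wQ := h.wQ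
  QN := h.QN

private theorem r94_Tp_mono {m : ℕ} {S : Sys m} {c : Fin m → ℝ} {δ Y Y' γ lam w : ℝ}
    {n n' B B' : ℕ} {p : Phi m} (h : Tp S c δ n B Y γ lam w p) (h0 : 0 < δ) (h1 : δ ≤ 1 / 2)
    (hD : 0 < S.D)
    (hl : 0 ≤ lam) (hw : 0 ≤ w) (hn : n ≤ n') (hB : B' ≤ B) (hY : Y' ≤ Y) :
    Tp S c δ n' B' Y' γ lam w p := by
  obtain ⟨Λ, h2, h3, h4⟩ := h
  refine ⟨Λ, ?_, ?_, ?_⟩
  · exact (mul_le_mul_of_nonneg_right (r94_pow_anti h0 h1 hn) hl).trans h2
  · exact h3.trans (mul_le_mul_of_nonneg_right (r94_pow_inv_mono h0 h1 hn) hl)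
  · intro b hb y hy1 hy2
    refine (h4 b (hb.trans hB) y hy1 (hy2.trans hY)).trans ?_
    gcongr ?_ / _
    have := r94_pow_inv_mono h0 h1 hn
    gcongr

private theorem r94_Tp_neg {m : ℕ} {S : Sys m} {c : Fin m → ℝ} {δ Y γ lam w : ℝ}
    {n B : ℕ} {p q : Phi m} (h : Tp S c δ n B Y γ lam w (p - q)) :
    Tp S c δ n B Y γ lam w (q - p) := by
  obtain ⟨Λ, h2, h3, h4⟩ := h
  refine ⟨-Λ, by rwa [abs_neg], by rwa [abs_neg], ?_⟩
  intro b hb y hy1 hy2
  have h5 := h4 b hb y hy1 hy2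
  rw [jet_sub] at h5 ⊢
  rw [← abs_neg]
  convert h5 using 2
  ring

private theorem r94_Clu_mono {m M : ℕ} {S : Sys m} {c : Fin m → ℝ} {δ Y Y' γ lam w : ℝ}
    {n n' B B' : ℕ} {g0 : Phi m} {t : List (Phi m)} (h : Clu S c δ M n B Y γ lam w g0 t)
    (h0 : 0 < δ) (h1 : δ ≤ 1 / 2)
    (hD : 0 < S.D)
    (hl : 0 ≤ lam) (hw : 0 ≤ w) (hn : n ≤ n') (hB : B' ≤ B) (hY : Y' ≤ Y) :
    Clu S c δ M n' B' Y' γ lam w g0 t where
  g := fun g hg => r94_Tp_mono (h.g g hg) h0 h1 hD hl hw hn hB hY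
  b0 := h.b0.mono hn
  bt := fun g hg => (h.bt g hg).mono hn
  ne := h.ne
  le := h.le.trans hn

private theorem r94_TG_mono {m M : ℕ} {S : Sys m} {c : Fin m → ℝ} {δ Y Y' γ lam w : ℝ}
    {n n' B B' : ℕ} {Lq Lg Lq' : List (Phi m)} (h : TG S c δ M n B Y γ lam w Lq Lg)
    (h0 : 0 < δ) (h1 : δ ≤ 1 / 2)
    (hD : 0 < S.D)
    (hl : 0 ≤ lam) (hw : 0 ≤ w) (hn : n ≤ n') (hB : B' ≤ B) (hY : Y' ≤ Y)
    (hs : List.Sublist Lq' Lq) :
    TG S c δ M n' B' Y' γ lam w Lq' Lg where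
  q := fun g hg p hp => by
    refine r94_Tp_mono (h.q g hg p ?_) h0 h1 hD hl hw hn hB hY
    rcases List.mem_cons.1 hp with h2 | h2
    · exact List.mem_cons.2 (Or.inl h2)
    · exact List.mem_cons.2 (Or.inr (hs.subset h2))
  g := fun g0 t ht g hg => r94_Tp_mono (h.g g0 t ht g hg) h0 h1 hD
    (by positivity) hw hn hB hY
  bq := fun p hp => (h.bq p (hs.subset hp)).mono hn
  bg := fun p hp => (h.bg p hp).mono hn
  lq := (hs.length_le.trans h.lq).trans hn
  lg := h.lg.trans hn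
  ne := h.ne

/-! ### the linear forms -/

private theorem r94_lform_perm {m N : ℕ} [NeZero N] (S : Sys m) (c : Fin m → ℝ)
    (F0 : ZMod N → ℂ) {L L' : List ((ZMod N → ℂ) × Phi m)} (h : L.Perm L') :
    lform S c F0 L = lform S c F0 L' := by
  unfold lform
  refine Finset.expect_congr rfl fun k _ => Finset.expect_congr rfl fun x _ => ?_
  congr 1
  exact (h.map _).prod_eq

private theorem r94_lform_frame {m N : ℕ} [NeZero N] (S : Sys m) (c : Fin m → ℝ)
    (f : ZMod N → ℂ) (q : Phi m) (L : List ((ZMod N → ℂ) × Phi m)) :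
    lform S c 1 ((f, q) :: L) = lform S c f (L.map (fun fp => (fp.1, fp.2 - q))) := by
  unfold lform
  refine Finset.expect_congr rfl fun k _ => ?_
  rw [← expect_shift _ (-(ev (S.a c) q k : ZMod N))]
  refine Finset.expect_congr rfl fun x _ => ?_
  simp only [Pi.one_apply, one_mul, List.map_cons, List.prod_cons, List.map_map,
    neg_add_cancel_right]
  congr 2
  refine List.map_congr_left fun fp _ => ?_
  simp only [Function.comp]
  rw [ev_sub, Int.cast_sub, ← add_sub_assoc, sub_eq_add_neg, add_right_comm]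

private theorem r94_norm_prod {ι : Type} (L : List ι) (f : ι → ℂ) (h : ∀ i ∈ L, ‖f i‖ ≤ 1) :
    ‖(L.map f).prod‖ ≤ 1 := by
  induction L with
  | nil => simp
  | cons a L ih =>
    rw [List.map_cons, List.prod_cons, norm_mul]
    exact mul_le_one₀ (h a (by simp)) (norm_nonneg _) (ih fun i hi => h i (by simp [hi]))

private theorem r94_merge1 {m N : ℕ} [NeZero N] (S : Sys m) (c : Fin m → ℝ) (B E : ℝ)
    (F0 : ZMod N → ℂ) (hF0 : ∀ x, ‖F0 x‖ ≤ 1)
    (L : List ((ZMod N → ℂ) × Phi m)) (hL : ∀ fp ∈ L, ∀ x, ‖fp.1 x‖ ≤ 1)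
    (hQ : 1 ≤ S.Q) (f : ZMod N → ℂ) (hf : Adm B S.Q f) (p : Phi m) (hE0 : 0 ≤ E)
    (hE : ∀ k ∈ S.I, |(ev (S.a c) p k : ℝ)| ≤ E) :
    ‖lform S c F0 ((f, p) :: L) - lform S c (fun x => F0 x * f x) L‖
      ≤ E * B * (1 / S.Q + 1 / N) := by
  have hB : 0 ≤ B := hf.tv.nonneg
  have hQ' : (0 : ℝ) < S.Q := by exact_mod_cast hQ
  have hR : 0 ≤ E * B * (1 / (S.Q : ℝ) + 1 / N) := by positivity
  unfold lform
  rw [← Finset.expect_sub_distrib]
  refine norm_expect_le_of5 _ _ hR fun k hk => ?_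
  rw [← Finset.expect_sub_distrib]
  refine (norm_expect_le5 _ _).trans ?_
  calc 𝔼 x, ‖F0 x * (List.map (fun fp => fp.1 (x + (ev (S.a c) fp.2 k : ZMod N)))
          ((f, p) :: L)).prod - F0 x * f x * (List.map
            (fun fp => fp.1 (x + (ev (S.a c) fp.2 k : ZMod N))) L).prod‖
      ≤ 𝔼 x, ‖f (x + (ev (S.a c) p k : ZMod N)) - f x‖ := by
        refine Finset.expect_le_expect fun x _ => ?_
        have h1 : F0 x * (List.map (fun fp => fp.1 (x + (ev (S.a c) fp.2 k : ZMod N)))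
          ((f, p) :: L)).prod - F0 x * f x * (List.map
            (fun fp => fp.1 (x + (ev (S.a c) fp.2 k : ZMod N))) L).prod
            = (f (x + (ev (S.a c) p k : ZMod N)) - f x) * (F0 x * (List.map
            (fun fp => fp.1 (x + (ev (S.a c) fp.2 k : ZMod N))) L).prod) := by
          rw [List.map_cons, List.prod_cons]; ring
        rw [h1, norm_mul]
        refine mul_le_of_le_one_right (norm_nonneg _) ?_
        rw [norm_mul]
        exact mul_le_one₀ (hF0 x) (norm_nonneg _) (r94_norm_prod _ _ fun fp hfp => hL fp hfp _)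
    _ ≤ |((ev (S.a c) p k : ℤ) : ℝ)| * B * (1 / S.Q + 1 / N) := hf.tv.l1_shift hQ' _
    _ ≤ E * B * (1 / S.Q + 1 / N) := by
        have := hE k hk
        gcongr

private theorem r94_merge {m N : ℕ} [NeZero N] (S : Sys m) (c : Fin m → ℝ) (B E : ℝ)
    (pr : (ZMod N → ℂ) × Phi m → Bool)
    (hQ : 1 ≤ S.Q) (hE0 : 0 ≤ E) (hB : 0 ≤ B)
    (Lq : List ((ZMod N → ℂ) × Phi m)) : ∀ (Lg : List ((ZMod N → ℂ) × Phi m)) (F0 : ZMod N → ℂ),
    (∀ x, ‖F0 x‖ ≤ 1) → (∀ fp ∈ Lg, ∀ x, ‖fp.1 x‖ ≤ 1) →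
    (∀ fp ∈ Lq, Adm B S.Q fp.1) →
    (∀ fp ∈ Lq, pr fp = false → ∀ k ∈ S.I, |(ev (S.a c) fp.2 k : ℝ)| ≤ E) →
    ∃ F0' : ZMod N → ℂ, (∀ x, ‖F0' x‖ ≤ 1) ∧
    ‖lform S c F0 (Lq ++ Lg) - lform S c F0' (Lq.filter pr ++ Lg)‖
      ≤ Lq.length * (E * B * (1 / S.Q + 1 / N)) := by
  have hQ' : (0 : ℝ) < S.Q := by exact_mod_cast hQ
  have hR : 0 ≤ E * B * (1 / (S.Q : ℝ) + 1 / N) := by positivity
  induction Lq with
  | nil =>
    intro Lg F0 hF0 hLg _ _
    exact ⟨F0, hF0, by simp⟩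
  | cons fp Lq ih =>
    intro Lg F0 hF0 hLg hLq hE
    obtain ⟨f, p⟩ := fp
    have hf : Adm B S.Q f := hLq (f, p) (by simp)
    cases hp : pr (f, p) with
    | true =>
      obtain ⟨F0', h1, h2⟩ := ih ((f, p) :: Lg) F0 hF0
        (fun fp hfp => by
          rcases List.mem_cons.1 hfp with h | h
          · rw [h]; exact hf.bdd
          · exact hLg fp h)
        (fun fp hfp => hLq fp (by simp [hfp])) (fun fp hfp => hE fp (by simp [hfp]))
      refine ⟨F0', h1, ?_⟩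
      rw [List.filter_cons_of_pos hp]
      rw [r94_lform_perm S c F0 (L := ((f, p) :: Lq) ++ Lg) (L' := Lq ++ (f, p) :: Lg)
        (by simpa using (List.perm_middle (l₁ := Lq) (l₂ := Lg) (a := (f, p))).symm)]
      rw [r94_lform_perm S c F0' (L := ((f, p) :: Lq.filter pr) ++ Lg)
        (L' := Lq.filter pr ++ (f, p) :: Lg)
        (by simpa using (List.perm_middle (l₁ := Lq.filter pr) (l₂ := Lg) (a := (f, p))).symm)]
      refine h2.trans ?_
      rw [List.length_cons]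
      push_cast
      nlinarith
    | false =>
      obtain ⟨F0', h1, h2⟩ := ih Lg (fun x => F0 x * f x)
        (fun x => by
          rw [norm_mul]
          exact mul_le_one₀ (hF0 x) (norm_nonneg _) (hf.bdd x)) hLg
        (fun fp hfp => hLq fp (by simp [hfp])) (fun fp hfp => hE fp (by simp [hfp]))
      refine ⟨F0', h1, ?_⟩
      rw [List.filter_cons_of_neg (by simp [hp])]
      have h3 := r94_merge1 S c B E F0 hF0 (Lq ++ Lg)
        (fun fp hfp => by
          rcases List.mem_append.1 hfp with h | h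
          · exact (hLq fp (by simp [h])).bdd
          · exact hLg fp h) hQ f hf p hE0 (hE (f, p) (by simp) hp)
      rw [List.cons_append]
      calc _ ≤ ‖lform S c F0 ((f, p) :: (Lq ++ Lg)) - lform S c (fun x => F0 x * f x) (Lq ++ Lg)‖
            + ‖lform S c (fun x => F0 x * f x) (Lq ++ Lg) -
              lform S c F0' (Lq.filter pr ++ Lg)‖ := norm_sub_le_norm_sub_add_norm_sub _ _ _
        _ ≤ _ := by
          rw [List.length_cons]
          push_cast
          linarith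

/-- sizes -/
private theorem r94_pow_ge (C : ℝ) : ∃ e : ℕ, ∀ δ : ℝ, 0 < δ → δ ≤ 1 / 2 → C ≤ δ⁻¹ ^ e := by
  obtain ⟨e, he⟩ := pow_unbounded_of_one_lt C (by norm_num : (1 : ℝ) < 2)
  exact ⟨e, fun δ h0 h1 => he.le.trans (pow_le_pow_left₀ (by norm_num) (r94_inv_one h0 h1) e)⟩

private theorem r94_ev {m : ℕ} (c : Fin m → ℝ) (n R : ℕ) : ∃ C : ℝ, 0 < C ∧
    ∀ (S : Sys m) (N : ℕ) (δ w : ℝ) (M : ℕ), Env S N δ M R w n →
    ∀ p : Phi m, Bd M n p → p ∈ (VV R : AddSubgroup (Phi m)) →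
    ∀ k ∈ S.I, |(ev (S.a c) p k : ℝ)| ≤ C * (w * S.Q) := by
  obtain ⟨C, hC, h⟩ := ev_small c n R
  refine ⟨2 * C, by positivity, ?_⟩
  intro S N δ w M hE p hp hV k hk
  have hD : 0 < S.D := by linarith [hE.D1]
  have hnM : n * (M : ℝ) ≤ S.D := by
    have h1 : (M : ℝ) / S.D ≤ δ ^ n := hE.MD.trans hE.w1
    rw [div_le_iff₀ hD] at h1
    have h2 : (n : ℝ) * δ ^ n ≤ 1 := by
      have h3 : δ ^ n ≤ (1 / 2) ^ n := pow_le_pow_left₀ hE.δ0.le hE.δ1 n
      have h4 : (n : ℝ) ≤ 2 ^ n := by exact_mod_cast Nat.lt_two_pow_self.le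
      calc (n : ℝ) * δ ^ n ≤ 2 ^ n * (1 / 2) ^ n := by
            have := pow_nonneg hE.δ0.le n
            gcongr
        _ = 1 := by rw [← mul_pow]; norm_num
    calc n * (M : ℝ) ≤ n * (δ ^ n * S.D) := by gcongr
      _ = (n * δ ^ n) * S.D := by ring
      _ ≤ 1 * S.D := by gcongr
      _ = S.D := one_mul _
  obtain ⟨Pm, hP0, hP1, hP2⟩ : ∃ Pm : ℝ, 0 ≤ Pm ∧ (∀ i, 0 ≤ S.P i ∧ S.P i ≤ Pm) ∧
      Pm * ((M : ℝ) / S.D) ^ R ≤ w * S.Q := by
    rcases isEmpty_or_nonempty (Fin m) with hm | hm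
    · refine ⟨0, le_rfl, fun i => (hm.false i).elim, ?_⟩
      rw [zero_mul]
      linarith [hE.wQ]
    · obtain ⟨i0, hi0⟩ := Finite.exists_max S.P
      exact ⟨S.P i0, hE.P0 i0, fun i => ⟨hE.P0 i, hi0 i⟩, hE.PR i0⟩
  rw [Sys.I, Finset.mem_Ico] at hk
  have hk1 : (S.u : ℝ) ≤ k := by exact_mod_cast hk.1
  have hk2 : (k : ℝ) ≤ S.u + S.T := by exact_mod_cast hk.2.le
  have := h S M Pm hP0 hE.D1 hE.ρ0 hE.ρ1 hnM hP1 p hp hV k (hE.u1.trans hk1)
    (by linarith [hE.u2])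
  refine this.trans ?_
  have h5 := hE.wQ
  nlinarith

/-- merging the negligible elements -/
private theorem r94_merge2 {m : ℕ} (c : Fin m → ℝ) (n R : ℕ) : ∃ n' : ℕ, n ≤ n' ∧
    ∀ (S : Sys m) (N : ℕ) [NeZero N] (δ w : ℝ) (M : ℕ), Env S N δ M R w n' →
    ∀ (Lq Lg : List ((ZMod N → ℂ) × Phi m)) (F0 : ZMod N → ℂ) (pr : (ZMod N → ℂ) × Phi m → Bool),
    (∀ fp : (ZMod N → ℂ) × Phi m, pr fp = false ↔ fp.2 ∈ (VV R : AddSubgroup (Phi m))) →
    (∀ x, ‖F0 x‖ ≤ 1) → (∀ fp ∈ Lg, ∀ x, ‖fp.1 x‖ ≤ 1) →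
    (∀ fp ∈ Lq, Adm (δ⁻¹ ^ n) S.Q fp.1) → (∀ fp ∈ Lq, Bd M n fp.2) → Lq.length ≤ n →
    δ ^ n ≤ ‖lform S c F0 (Lq ++ Lg)‖ →
    ∃ F0' : ZMod N → ℂ, (∀ x, ‖F0' x‖ ≤ 1) ∧
      δ ^ n' ≤ ‖lform S c F0' (Lq.filter pr ++ Lg)‖ := by
  obtain ⟨C, hC, h⟩ := r94_ev c n R
  obtain ⟨e, he⟩ := r94_pow_ge (4 * n * C)
  refine ⟨2 * n + e + 1, by omega, ?_⟩
  intro S N _ δ w M hE Lq Lg F0 pr hpr hF0 hLg hLq hBd hlen hδ
  have hδ0 := hE.δ0
  have hδ1 := hE.δ1
  have hE' : Env S N δ M R w n := r94_Env_mono hE (by omega)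
  have hwQ := hE.wQ
  have hQ0 : (0 : ℝ) < S.Q := by
    rcases (Nat.cast_nonneg S.Q : (0 : ℝ) ≤ S.Q).eq_or_lt with h0 | h0
    · rw [← h0, mul_zero] at hwQ; linarith
    · exact h0
  have hQ1 : 1 ≤ S.Q := by exact_mod_cast Nat.cast_pos.1 hQ0
  have hw0 : 0 < w := by
    by_contra h0
    have : w * S.Q ≤ 0 := mul_nonpos_of_nonpos_of_nonneg (not_lt.1 h0) hQ0.le
    linarith
  obtain ⟨F0', h1, h2⟩ := r94_merge S c (δ⁻¹ ^ n) (C * (w * S.Q)) pr hQ1
    (by positivity) (by positivity) Lq Lg F0 hF0 hLg hLq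
    (fun fp hfp hp k hk => h S N δ w M hE' fp.2 (hBd fp hfp) ((hpr fp).1 hp) k hk)
  refine ⟨F0', h1, ?_⟩
  have hNpos : (0 : ℝ) < N := by
    have := NeZero.pos N
    exact_mod_cast this
  have h3 : (Lq.length : ℝ) * (C * (w * S.Q) * δ⁻¹ ^ n * (1 / S.Q + 1 / N)) ≤ δ ^ n / 2 := by
    have h4 : (1 : ℝ) / S.Q + 1 / N ≤ 2 / S.Q := by
      have : (1 : ℝ) / N ≤ 1 / S.Q := one_div_le_one_div_of_le hQ0 hE.QN
      calc (1 : ℝ) / S.Q + 1 / N ≤ 1 / S.Q + 1 / S.Q := by linarith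
        _ = 2 / S.Q := by ring
    have h5 : (Lq.length : ℝ) ≤ n := by exact_mod_cast hlen
    calc (Lq.length : ℝ) * (C * (w * S.Q) * δ⁻¹ ^ n * (1 / S.Q + 1 / N))
        ≤ n * (C * (w * S.Q) * δ⁻¹ ^ n * (2 / S.Q)) := by gcongr
      _ = 2 * n * C * w * δ⁻¹ ^ n := by field_simp
      _ ≤ 2 * n * C * δ ^ (2 * n + e + 1) * δ⁻¹ ^ n := by
          have := hE.w1
          gcongr
      _ = (4 * n * C) * (δ ^ e * δ ^ n * δ) / 2 := by
          rw [show 2 * n + e + 1 = n + e + n + 1 by ring, pow_succ, pow_add, pow_add]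
          have : δ ^ n * δ⁻¹ ^ n = 1 := by
            rw [← mul_pow, mul_inv_cancel₀ hδ0.ne', one_pow]
          linear_combination (2 * n * C * δ ^ e * δ ^ n * δ) * this
      _ ≤ δ⁻¹ ^ e * (δ ^ e * δ ^ n * δ) / 2 := by
          have := he δ hδ0 hδ1
          gcongr
      _ = δ ^ n * δ / 2 := by
          have : δ⁻¹ ^ e * δ ^ e = 1 := by
            rw [← mul_pow, inv_mul_cancel₀ hδ0.ne', one_pow]
          linear_combination (δ ^ n * δ / 2) * this
      _ ≤ δ ^ n / 2 := by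
          have : δ ^ n * δ ≤ δ ^ n * 1 := by
            have := pow_pos hδ0 n
            gcongr
            linarith
          linarith
  have h6 : ‖lform S c F0 (Lq ++ Lg)‖ ≤ ‖lform S c F0' (Lq.filter pr ++ Lg)‖ +
      ‖lform S c F0 (Lq ++ Lg) - lform S c F0' (Lq.filter pr ++ Lg)‖ := by
    have := norm_sub_norm_le (lform S c F0 (Lq ++ Lg)) (lform S c F0' (Lq.filter pr ++ Lg))
    linarith
  have h7 : δ ^ (2 * n + e + 1) ≤ δ ^ n / 2 := by
    calc δ ^ (2 * n + e + 1) ≤ δ ^ (n + 1) := r94_pow_anti hδ0 hδ1 (by omega)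
      _ = δ ^ n * δ := pow_succ _ _
      _ ≤ δ ^ n * (1 / 2) := by
          have := pow_pos hδ0 n
          gcongr
      _ = δ ^ n / 2 := by ring
  linarith

/-- sizes needed for `lform_step` -/
private theorem r94_step_sizes {m N M R n : ℕ} {S : Sys m} {δ w : ℝ}
    (hE : Env S N δ M R w (2 * n + 6)) :
    0 < δ ^ n ∧ δ ^ n ≤ 1 ∧ 16 / (δ ^ n) ^ 2 ≤ M ∧ (M : ℝ) ≤ (δ ^ n) ^ 2 * S.T / 64 := by
  have hδ0 := hE.δ0
  have hδ1 := hE.δ1
  refine ⟨pow_pos hδ0 n, pow_le_one₀ hδ0.le (by linarith), ?_, ?_⟩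
  · have h1 := (r94_Env_mono hE (show 2 * n + 4 ≤ 2 * n + 6 by omega)).M1
    refine le_trans ?_ h1
    have h2 : (16 : ℝ) ≤ δ⁻¹ ^ 4 := by
      have := pow_le_pow_left₀ (by norm_num) (r94_inv_one hδ0 hδ1) 4
      norm_num at this ⊢
      linarith
    rw [div_eq_mul_inv, pow_add, ← pow_mul, mul_comm n 2, ← inv_pow, mul_comm]
    have := pow_pos (inv_pos.2 hδ0) (2 * n)
    gcongr
  · refine hE.MT.trans ?_
    have h2 : δ ^ 6 ≤ 1 / 64 := by
      have := pow_le_pow_left₀ hδ0.le hδ1 6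
      norm_num at this ⊢
      linarith
    have h3 : (0 : ℝ) ≤ S.T := Nat.cast_nonneg _
    have h4 := pow_pos hδ0 (2 * n)
    calc δ ^ (2 * n + 6) * (S.T : ℝ) = δ ^ (2 * n) * δ ^ 6 * S.T := by rw [pow_add]
      _ ≤ δ ^ (2 * n) * (1 / 64) * S.T := by gcongr
      _ = (δ ^ n) ^ 2 * S.T / 64 := by rw [← pow_mul, mul_comm n 2]; ring

/-- the conclusion of a round -/
private def Concl {m N : ℕ} [NeZero N] (S : Sys m) (c : Fin m → ℝ) (δ : ℝ) (M n B : ℕ)
    (Y γ lam w : ℝ) (b : ℕ) (fs : ZMod N → ℂ) (l : ℕ) : Prop :=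
  ∃ (g0' : Phi m) (t' : List ((ZMod N → ℂ) × Phi m)),
    (∀ fp ∈ t', fp.1 = fs ∨ fp.1 = fun x => conj (fs x)) ∧ t'.length + 1 ≤ l ∧
    Clu S c δ M n B Y (γ - 1) (lam * M / S.D) w g0' (t'.map Prod.snd) ∧
    (∀ fp ∈ t', fp.2 - g0' ∈ (VV (b + 1) : AddSubgroup (Phi m))) ∧
    δ ^ n ≤ ‖lform S c 1 ((fs, g0') :: t')‖

/-- the invariant of the filtration -/
private structure InvV {m : ℕ} {F : Type} (b : ℕ) (Lq : List (F × Phi m)) (g0 : Phi m)
    (tg : List (F × Phi m)) : Prop where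
  q : ∀ fp ∈ Lq, fp.2 ∈ (VV b : AddSubgroup (Phi m))
  h0 : g0 ∈ (VV b : AddSubgroup (Phi m))
  d : ∀ fp ∈ tg, fp.2 - g0 ∈ (VV (b + 1) : AddSubgroup (Phi m))

private theorem InvV.g {m : ℕ} {F : Type} {b : ℕ} {Lq : List (F × Phi m)} {g0 : Phi m}
    {tg : List (F × Phi m)} (h : InvV b Lq g0 tg) (fp : F × Phi m) (hfp : fp ∈ tg) :
    fp.2 ∈ (VV b : AddSubgroup (Phi m)) := by
  have h1 := VV_antitone (m := m) (Nat.le_succ b) (h.d fp hfp)
  have h2 := add_mem h1 h.h0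
  rwa [sub_add_cancel] at h2

private theorem r94_Concl_mono {m N M R : ℕ} [NeZero N] {S : Sys m} {c : Fin m → ℝ}
    {δ Y Y' γ lam w : ℝ} {n n' B B' b l l' : ℕ} {fs : ZMod N → ℂ}
    (h : Concl S c δ M n B Y γ lam w b fs l) (hE : Env S N δ M R w n')
    (hl : 0 ≤ lam) (hw : 0 ≤ w) (hn : n ≤ n') (hB : B' ≤ B) (hY : Y' ≤ Y) (hll : l ≤ l') :
    Concl S c δ M n' B' Y' γ lam w b fs l' := by
  obtain ⟨g0', t', h1, h2, h3, h5, h4⟩ := h
  have hD : 0 < S.D := by linarith [hE.D1]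
  refine ⟨g0', t', h1, h2.trans hll, r94_Clu_mono h3 hE.δ0 hE.δ1 hD (by positivity) hw hn hB hY,
    h5, (r94_pow_anti hE.δ0 hE.δ1 hn).trans h4⟩

private theorem r94_Env_w {m N M R n : ℕ} {S : Sys m} {δ w : ℝ} (hE : Env S N δ M R w n) :
    0 < w := by
  have hwQ := hE.wQ
  by_contra h0
  have : w * S.Q ≤ 0 := mul_nonpos_of_nonpos_of_nonneg (not_lt.1 h0) (Nat.cast_nonneg _)
  linarith

/-- the last step -/
private theorem r94_final (γ : ℝ) (hγ : γ ≠ 0) (n B : ℕ) : ∃ n' : ℕ, n ≤ n' ∧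
    ∀ (m : ℕ) (c : Fin m → ℝ) (R : ℕ) (S : Sys m) (N : ℕ) [NeZero N] (δ Y lam w : ℝ) (M : ℕ),
      Env S N δ M R w n' → 0 < lam → Y ≤ 3 * S.D →
      ∀ (fs F0 : ZMod N → ℂ) (g0 : Phi m) (tg : List ((ZMod N → ℂ) × Phi m)),
        (∀ x, ‖fs x‖ ≤ 1) → (∀ x, ‖F0 x‖ ≤ 1) →
        (∀ fp ∈ tg, fp.1 = fs ∨ fp.1 = fun x => conj (fs x)) →
        TG S c δ M n (B + 1) (Y + M) γ lam w [] (g0 :: tg.map Prod.snd) →
        ∀ b : ℕ, InvV b [] g0 tg →
        δ ^ n ≤ ‖lform S c F0 ((fs, g0) :: tg)‖ →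
        Concl S c δ M n' B Y γ lam w b fs (2 * (tg.length + 1)) := by
  obtain ⟨n1, hn1, H⟩ := type_final γ hγ n B
  refine ⟨n1 + 2 * n + 6, by omega, ?_⟩
  intro m c R S N _ δ Y lam w M hE hlam hY fs F0 g0 tg hfs hF0 htg hTG b hV hδ
  have hδ0 := hE.δ0
  have hδ1 := hE.δ1
  have hE1 : Env S N δ M R w n1 := r94_Env_mono hE (by omega)
  obtain ⟨Bad, hBad, hB2⟩ := H m S c δ Y lam w M hE.D1 hE.ρ0 hE.ρ1 hδ0 hδ1 hlam hE1.M1 hE1.MD
    hE1.w1 hY g0 (tg.map Prod.snd) hTG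
  obtain ⟨s1, s2, s3, s4⟩ := r94_step_sizes (r94_Env_mono hE (show 2 * n + 6 ≤ n1 + 2 * n + 6
    by omega))
  have htg' : ∀ fp ∈ tg, ∀ x, ‖fp.1 x‖ ≤ 1 := by
    intro fp hfp x
    rcases htg fp hfp with h | h
    · rw [h]; exact hfs x
    · rw [h]; simpa using hfs x
  obtain ⟨s, hs1, hs2, hs3, hs4⟩ := lform_step S c M (δ ^ n) s1 s2 F0 hF0 ((fs, g0) :: tg)
    (by
      intro fp hfp x
      rcases List.mem_cons.1 hfp with h | h
      · rw [h]; exact hfs x
      · exact htg' fp h x) s3 s4 Bad (by rw [← pow_mul, mul_comm n 2]; exact hBad) 0 hδ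
  refine ⟨g0, tg ++ ((fs, g0) :: tg).map (fun fp => ((fun x => conj (fp.1 x)), tau s fp.2)),
    ?_, ?_, ?_, ?_, ?_⟩
  · intro fp hfp
    rcases List.mem_append.1 hfp with h | h
    · exact htg fp h
    · obtain ⟨fp', h1, rfl⟩ := List.mem_map.1 h
      rcases List.mem_cons.1 h1 with h2 | h2
      · subst h2
        exact Or.inr rfl
      · rcases htg fp' h2 with h3 | h3
        · exact Or.inr (by rw [h3])
        · refine Or.inl ?_
          funext x
          show conj (fp'.1 x) = fs x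
          rw [h3]
          simp
  · simp only [List.length_append, List.length_map, List.length_cons]
    omega
  · have := hB2 s hs1 hs2 hs3
    have h5 : ((tg ++ ((fs, g0) :: tg).map
        (fun fp => ((fun x => conj (fp.1 x)), tau s fp.2))).map Prod.snd)
        = tg.map Prod.snd ++ (g0 :: tg.map Prod.snd).map (tau s) := by
      simp [List.map_append, List.map_map, Function.comp_def]
    rw [h5]
    exact r94_Clu_mono this hδ0 hδ1 (by linarith [hE.D1])
      (by have := hE.D1; positivity) (r94_Env_w hE).le (by omega) le_rfl le_rfl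
  · intro fp hfp
    rcases List.mem_append.1 hfp with h | h
    · exact hV.d fp h
    · obtain ⟨fp', h1, rfl⟩ := List.mem_map.1 h
      show tau s fp'.2 - g0 ∈ (VV (b + 1) : AddSubgroup (Phi m))
      rcases List.mem_cons.1 h1 with h2 | h2
      · subst h2
        exact tau_sub_mem b s g0 hV.h0
      · have h3 := add_mem (tau_sub_mem b s fp'.2 (hV.g fp' h2)) (hV.d fp' h2)
        rwa [sub_add_sub_cancel] at h3
  · have h5 : (fs, g0) :: (tg ++ ((fs, g0) :: tg).map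
        (fun fp => ((fun x => conj (fp.1 x)), tau s fp.2)))
        = ((fs, g0) :: tg).map (fun fp => (fp.1, fp.2 - 0)) ++
        ((fs, g0) :: tg).map (fun fp => ((fun x => conj (fp.1 x)), tau s fp.2 - 0)) := by
      simp
    rw [h5]
    refine le_trans ?_ hs4
    have h6 : δ ^ 2 ≤ 1 / 4 := by
      have := pow_le_pow_left₀ hδ0.le hδ1 2
      norm_num at this ⊢
      linarith
    calc δ ^ (n1 + 2 * n + 6) ≤ δ ^ (2 * n + 2) := r94_pow_anti hδ0 hδ1 (by omega)
      _ = δ ^ (2 * n) * δ ^ 2 := pow_add _ _ _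
      _ ≤ δ ^ (2 * n) * (1 / 4) := by
          have := pow_pos hδ0 (2 * n)
          gcongr
      _ = (δ ^ n) ^ 2 / 4 := by rw [← pow_mul, mul_comm n 2]; ring

/-- the elimination: induction over the number of remaining steps -/
private theorem r94_main {m : ℕ} (c : Fin m → ℝ) (γ : ℝ) (hγ : γ ≠ 0) (R μ : ℕ) :
    ∀ n B : ℕ, ∃ n' : ℕ, n ≤ n' ∧
    ∀ (S : Sys m) (N : ℕ) [NeZero N] (δ Y lam w : ℝ) (M : ℕ),
      Env S N δ M R w n' → 0 < lam → Y + (μ + 1 : ℕ) * (M : ℝ) ≤ 3 * S.D →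
      ∀ (fs F0 : ZMod N → ℂ) (Lq : List ((ZMod N → ℂ) × Phi m)) (g0 : Phi m)
        (tg : List ((ZMod N → ℂ) × Phi m)),
        (∀ x, ‖fs x‖ ≤ 1) → (∀ x, ‖F0 x‖ ≤ 1) →
        (∀ fp ∈ tg, fp.1 = fs ∨ fp.1 = fun x => conj (fs x)) →
        (∀ fp ∈ Lq, Adm (δ⁻¹ ^ n) S.Q fp.1) →
        Steps VV tau R μ (Lq.map Prod.snd) →
        TG S c δ M n (B + (μ + 1)) (Y + (μ + 1 : ℕ) * (M : ℝ)) γ lam w
          (Lq.map Prod.snd) (g0 :: tg.map Prod.snd) →
        ∀ b : ℕ, InvV b Lq g0 tg →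
        δ ^ n ≤ ‖lform S c F0 (Lq ++ (fs, g0) :: tg)‖ →
        Concl S c δ M n' B Y γ lam w b fs ((tg.length + 1) * 2 ^ (μ + 1)) := by
  classical
  induction μ with
  | zero =>
    intro n B
    obtain ⟨n', hn', H⟩ := r94_final γ hγ n B
    refine ⟨n', hn', ?_⟩
    intro S N _ δ Y lam w M hE hlam hY fs F0 Lq g0 tg hfs hF0 htg hLq hSt hTG b hV hδ
    simp only [zero_add, pow_one, Nat.cast_one, one_mul] at hY hTG ⊢
    have hnil : Lq = [] := by simpa [Steps] using hSt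
    subst hnil
    have hM0 : (0 : ℝ) ≤ M := Nat.cast_nonneg _
    have := H m c R S N δ Y lam w M hE hlam (by linarith) fs F0 g0 tg hfs hF0 htg hTG b hV
      (by simpa using hδ)
    rwa [mul_comm]
  | succ μ ih =>
    intro n B
    obtain ⟨na, hna, Ha⟩ := r94_final γ hγ n B
    obtain ⟨n1, hn1, H1⟩ := type_step γ hγ n (B + (μ + 1))
    obtain ⟨n2, hn2, H2⟩ := r94_merge2 c (max n1 (2 * n + 2)) R
    obtain ⟨n3, hn3, H3⟩ := ih n2 B
    refine ⟨max na (n3 + 2 * n + 6), by omega, ?_⟩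
    intro S N _ δ Y lam w M hE hlam hY fs F0 Lq g0 tg hfs hF0 htg hLq hSt hTG b hV hδ
    have hδ0 := hE.δ0
    have hδ1 := hE.δ1
    have hD := hE.D1
    have hw := r94_Env_w hE
    have hM0 : (0 : ℝ) ≤ M := Nat.cast_nonneg _
    have hμM : (0 : ℝ) ≤ ((μ : ℝ) + 1) * M := by positivity
    rcases hSt with hnil | ⟨q, hq, hSt⟩
    · have hnil : Lq = [] := by simpa using hnil
      subst hnil
      have hY' : Y ≤ 3 * S.D := by
        push_cast at hY
        nlinarith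
      have := Ha m c R S N δ Y lam w M (r94_Env_mono hE (le_max_left _ _)) hlam hY' fs F0 g0 tg
        hfs hF0 htg (r94_TG_mono hTG hδ0 hδ1 (by linarith) hlam.le hw.le le_rfl (by omega)
          (by push_cast; nlinarith) (List.Sublist.refl _)) b hV (by simpa using hδ)
      refine r94_Concl_mono this hE hlam.le hw.le (le_max_left _ _) le_rfl le_rfl ?_
      have : 2 ≤ 2 ^ (μ + 1 + 1) := by
        calc 2 = 2 ^ 1 := rfl
          _ ≤ 2 ^ (μ + 1 + 1) := Nat.pow_le_pow_right (by norm_num) (by omega)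
      calc 2 * (tg.length + 1) = (tg.length + 1) * 2 := mul_comm _ _
        _ ≤ (tg.length + 1) * 2 ^ (μ + 1 + 1) := Nat.mul_le_mul_left _ this
    · have hE1 : Env S N δ M R w n1 := r94_Env_mono hE (by omega)
      have hE3 : Env S N δ M R w n3 := r94_Env_mono hE (by omega)
      have hE2 : Env S N δ M R w n2 := r94_Env_mono hE3 hn3
      have hYe : Y + ((μ + 1 + 1 : ℕ) : ℝ) * M = Y + ((μ + 1 : ℕ) : ℝ) * M + M := by
        push_cast; ring
      rw [hYe] at hY hTG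
      obtain ⟨Bad, hBad, hB2⟩ := H1 m S c δ (Y + ((μ + 1 : ℕ) : ℝ) * M) lam w M hE.D1 hE.ρ0 hE.ρ1
        hδ0 hδ1 hlam hE1.M1 hE1.MD hE1.w1 (by linarith) (Lq.map Prod.snd)
        (g0 :: tg.map Prod.snd) hTG q hq
      obtain ⟨s1, s2, s3, s4⟩ := r94_step_sizes (r94_Env_mono hE
        (show 2 * n + 6 ≤ max na (n3 + 2 * n + 6) by omega))
      have htg' : ∀ fp ∈ tg, ∀ x, ‖fp.1 x‖ ≤ 1 := by
        intro fp hfp x
        rcases htg fp hfp with h | h
        · rw [h]; exact hfs x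
        · rw [h]; simpa using hfs x
      obtain ⟨s, hs1, hs2, hs3, hs4⟩ := lform_step S c M (δ ^ n) s1 s2 F0 hF0
        (Lq ++ (fs, g0) :: tg)
        (by
          intro fp hfp x
          rcases List.mem_append.1 hfp with h | h
          · exact (hLq fp h).bdd x
          · rcases List.mem_cons.1 h with h | h
            · rw [h]; exact hfs x
            · exact htg' fp h x) s3 s4 Bad (by rw [← pow_mul, mul_comm n 2]; exact hBad) q hδ
      have hT := hB2 s hs1 hs2 hs3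
      -- the new lists
      set Lq1 : List ((ZMod N → ℂ) × Phi m) := Lq.map (fun fp => (fp.1, fp.2 - q)) ++
        Lq.map (fun fp => ((fun x => conj (fp.1 x)), tau s fp.2 - q)) with hLq1
      set tg1 : List ((ZMod N → ℂ) × Phi m) := tg.map (fun fp => (fp.1, fp.2 - q)) ++
        ((fs, g0) :: tg).map (fun fp => ((fun x => conj (fp.1 x)), tau s fp.2 - q)) with htg1
      have hLq1s : Lq1.map Prod.snd = (Lq.map Prod.snd).map (fun p => p - q) ++
          (Lq.map Prod.snd).map (fun p => tau s p - q) := by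
        simp [hLq1, List.map_append, List.map_map, Function.comp_def]
      have htg1s : (g0 - q) :: tg1.map Prod.snd = (g0 :: tg.map Prod.snd).map (fun p => p - q) ++
          (g0 :: tg.map Prod.snd).map (fun p => tau s p - q) := by
        simp [htg1, List.map_append, List.map_map, Function.comp_def]
      rw [← hLq1s, ← htg1s] at hT
      have hperm : ((Lq ++ (fs, g0) :: tg).map (fun fp => (fp.1, fp.2 - q)) ++
          (Lq ++ (fs, g0) :: tg).map
            (fun fp => ((fun x => conj (fp.1 x)), tau s fp.2 - q))).Perm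
          (Lq1 ++ (fs, g0 - q) :: tg1) := by
        have h1 : (fs, g0 - q) :: tg1 = ((fs, g0) :: tg).map (fun fp => (fp.1, fp.2 - q)) ++
          ((fs, g0) :: tg).map (fun fp => ((fun x => conj (fp.1 x)), tau s fp.2 - q)) := by
          simp [htg1]
        rw [h1, hLq1, List.map_append, List.map_append, List.append_assoc, List.append_assoc]
        refine List.Perm.append_left _ ?_
        rw [← List.append_assoc, ← List.append_assoc]
        exact List.Perm.append_right _ List.perm_append_comm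
      rw [r94_lform_perm S c 1 hperm] at hs4
      have hLq1A : ∀ fp ∈ Lq1, Adm (δ⁻¹ ^ (max n1 (2 * n + 2))) S.Q fp.1 := by
        have hmono : ∀ f : ZMod N → ℂ, Adm (δ⁻¹ ^ n) S.Q f →
            Adm (δ⁻¹ ^ (max n1 (2 * n + 2))) S.Q f := by
          intro f hf
          have hQ0 : (0 : ℝ) < S.Q := by
            have hwQ := hE.wQ
            rcases (Nat.cast_nonneg S.Q : (0 : ℝ) ≤ S.Q).eq_or_lt with h0 | h0
            · rw [← h0, mul_zero] at hwQ; linarith
            · exact h0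
          exact hf.mono (r94_pow_inv_mono hδ0 hδ1 (by omega)) hQ0 le_rfl
        intro fp hfp
        rcases List.mem_append.1 hfp with h | h
        · obtain ⟨fp', h1, rfl⟩ := List.mem_map.1 h
          exact hmono _ (hLq fp' h1)
        · obtain ⟨fp', h1, rfl⟩ := List.mem_map.1 h
          exact hmono _ (hLq fp' h1).cnj
      have htg1A : ∀ fp ∈ tg1, fp.1 = fs ∨ fp.1 = fun x => conj (fs x) := by
        intro fp hfp
        rcases List.mem_append.1 hfp with h | h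
        · obtain ⟨fp', h1, rfl⟩ := List.mem_map.1 h
          exact htg fp' h1
        · obtain ⟨fp', h1, rfl⟩ := List.mem_map.1 h
          rcases List.mem_cons.1 h1 with h2 | h2
          · subst h2
            exact Or.inr rfl
          · rcases htg fp' h2 with h3 | h3
            · exact Or.inr (by rw [h3])
            · refine Or.inl ?_
              funext x
              show conj (fp'.1 x) = fs x
              rw [h3]
              simp
      have hδ2 : δ ^ (max n1 (2 * n + 2)) ≤ ‖lform S c 1 (Lq1 ++ (fs, g0 - q) :: tg1)‖ := by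
        refine le_trans ?_ hs4
        have h6 : δ ^ 2 ≤ 1 / 4 := by
          have := pow_le_pow_left₀ hδ0.le hδ1 2
          norm_num at this ⊢
          linarith
        calc δ ^ (max n1 (2 * n + 2)) ≤ δ ^ (2 * n + 2) := r94_pow_anti hδ0 hδ1 (by omega)
          _ = δ ^ (2 * n) * δ ^ 2 := pow_add _ _ _
          _ ≤ δ ^ (2 * n) * (1 / 4) := by
              have := pow_pos hδ0 (2 * n)
              gcongr
          _ = (δ ^ n) ^ 2 / 4 := by rw [← pow_mul, mul_comm n 2]; ring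
      obtain ⟨F1, hF1, hδ3⟩ := H2 S N δ w M hE2 Lq1 ((fs, g0 - q) :: tg1) 1
        (fun fp => decide (fp.2 ∉ (VV R : AddSubgroup (Phi m))))
        (fun fp => by simp) (fun x => by simp)
        (by
          intro fp hfp x
          rcases List.mem_cons.1 hfp with h | h
          · rw [h]; exact hfs x
          · rcases htg1A fp h with h | h
            · rw [h]; exact hfs x
            · rw [h]; simpa using hfs x) hLq1A
        (fun fp hfp => (hT.bq fp.2 (List.mem_map_of_mem hfp)).mono (le_max_left _ _))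
        (by
          have := hT.lq
          rw [List.length_map] at this
          exact this.trans (le_max_left _ _)) hδ2
      have hpn : (Lq1.filter (fun fp => decide (fp.2 ∉ (VV R : AddSubgroup (Phi m))))).map Prod.snd
          = petNext VV tau R q s (Lq.map Prod.snd) := by
        unfold petNext
        rw [← hLq1s, List.filter_map]
        congr 1
      have hqV : q ∈ (VV b : AddSubgroup (Phi m)) := by
        obtain ⟨fp, h1, rfl⟩ := List.mem_map.1 hq
        exact hV.q fp h1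
      have htau : ∀ p : Phi m, p ∈ (VV b : AddSubgroup (Phi m)) →
          tau s p - q ∈ (VV b : AddSubgroup (Phi m)) := by
        intro p hp
        have h1 := add_mem (VV_antitone (m := m) (Nat.le_succ b) (tau_sub_mem b s p hp))
          (sub_mem hp hqV)
        rwa [sub_add_sub_cancel] at h1
      have hV1 : InvV b (Lq1.filter (fun fp => decide (fp.2 ∉ (VV R : AddSubgroup (Phi m)))))
          (g0 - q) tg1 := by
        constructor
        · intro fp hfp
          rcases List.mem_append.1 (List.mem_filter.1 hfp).1 with h | h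
          · obtain ⟨fp', h1, rfl⟩ := List.mem_map.1 h
            exact sub_mem (hV.q fp' h1) hqV
          · obtain ⟨fp', h1, rfl⟩ := List.mem_map.1 h
            exact htau _ (hV.q fp' h1)
        · exact sub_mem hV.h0 hqV
        · intro fp hfp
          rcases List.mem_append.1 hfp with h | h
          · obtain ⟨fp', h1, rfl⟩ := List.mem_map.1 h
            show fp'.2 - q - (g0 - q) ∈ (VV (b + 1) : AddSubgroup (Phi m))
            rw [sub_sub_sub_cancel_right]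
            exact hV.d fp' h1
          · obtain ⟨fp', h1, rfl⟩ := List.mem_map.1 h
            show tau s fp'.2 - q - (g0 - q) ∈ (VV (b + 1) : AddSubgroup (Phi m))
            rw [sub_sub_sub_cancel_right]
            rcases List.mem_cons.1 h1 with h2 | h2
            · subst h2
              exact tau_sub_mem b s g0 hV.h0
            · have h3 := add_mem (tau_sub_mem b s fp'.2 (hV.g fp' h2)) (hV.d fp' h2)
              rwa [sub_add_sub_cancel] at h3
      have := H3 S N δ Y lam w M hE3 hlam (by linarith) fs F1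
        (Lq1.filter (fun fp => decide (fp.2 ∉ (VV R : AddSubgroup (Phi m))))) (g0 - q) tg1 hfs hF1
        htg1A
        (by
          intro fp hfp
          have h1 : fp ∈ Lq1 := (List.mem_filter.1 hfp).1
          have hQ0 : (0 : ℝ) < S.Q := by
            have hwQ := hE.wQ
            rcases (Nat.cast_nonneg S.Q : (0 : ℝ) ≤ S.Q).eq_or_lt with h0 | h0
            · rw [← h0, mul_zero] at hwQ; linarith
            · exact h0
          exact (hLq1A fp h1).mono (r94_pow_inv_mono hδ0 hδ1 hn2) hQ0 le_rfl)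
        (by rw [hpn]; exact hSt s)
        (r94_TG_mono hT hδ0 hδ1 (by linarith) hlam.le hw.le ((le_max_left _ _).trans hn2)
          le_rfl le_rfl ((List.filter_sublist).map _)) b hV1 hδ3
      refine r94_Concl_mono this hE hlam.le hw.le (by omega) le_rfl le_rfl ?_
      have h7 : tg1.length + 1 = 2 * (tg.length + 1) := by
        simp [htg1]; omega
      rw [h7]
      exact le_of_eq (by ring)

/-- One round of the elimination, with the filtration. -/
theorem round' {m : ℕ} (c : Fin m → ℝ) (γ : ℝ) (hγ : γ ≠ 0) (R s : ℕ) : ∃ ν : ℕ, ∀ n B : ℕ,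
    ∃ n' : ℕ, ∀ (S : Sys m) (N : ℕ) [NeZero N] (δ Y lam w : ℝ) (M : ℕ), Env S N δ M R w n' →
      0 < lam → Y + ν * M ≤ 3 * S.D →
      ∀ (fs : ZMod N → ℂ) (g0 : Phi m) (t : List ((ZMod N → ℂ) × Phi m)) (b : ℕ), t.length ≤ s →
        Adm (δ⁻¹ ^ n) S.Q fs → (∀ fp ∈ t, Adm (δ⁻¹ ^ n) S.Q fp.1) →
        Clu S c δ M n (B + ν) (Y + ν * M) γ lam w g0 (t.map Prod.snd) →
        (∀ fp ∈ t, fp.2 - g0 ∈ (VV b : AddSubgroup (Phi m))) →
        δ ^ n ≤ ‖lform S c 1 ((fs, g0) :: t)‖ →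
        ∃ (g0' : Phi m) (t' : List ((ZMod N → ℂ) × Phi m)),
          (∀ fp ∈ t', fp.1 = fs ∨ fp.1 = fun x => conj (fs x)) ∧ t'.length ≤ 2 ^ ν ∧
          Clu S c δ M n' B Y (γ - 1) (lam * M / S.D) w g0' (t'.map Prod.snd) ∧
          (∀ fp ∈ t', fp.2 - g0' ∈ (VV (b + 1) : AddSubgroup (Phi m))) ∧
          δ ^ n' ≤ ‖lform S c 1 ((fs, g0') :: t')‖ := by
  classical
  obtain ⟨μ, hμ⟩ := pet_terminates R s
  refine ⟨μ + 1, ?_⟩
  intro n B
  obtain ⟨n2, hn2, H2⟩ := r94_merge2 c (2 * n + 1) R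
  obtain ⟨n3, hn3, H3⟩ := r94_main c γ hγ R μ n2 B
  refine ⟨n3, ?_⟩
  intro S N _ δ Y lam w M hE hlam hY fs g0 t b ht hfs htA hC hVt hδ
  have hδ0 := hE.δ0
  have hδ1 := hE.δ1
  have hD := hE.D1
  have hw := r94_Env_w hE
  have hQ0 : (0 : ℝ) < S.Q := by
    have hwQ := hE.wQ
    rcases (Nat.cast_nonneg S.Q : (0 : ℝ) ≤ S.Q).eq_or_lt with h0 | h0
    · rw [← h0, mul_zero] at hwQ; linarith
    · exact h0
  have hne : t ≠ [] := by
    intro h0
    exact hC.ne (by rw [h0]; rfl)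
  obtain ⟨⟨f1, q1⟩, rest, rfl⟩ := List.exists_cons_of_ne_nil hne
  have hq1 : q1 ∈ (((f1, q1) :: rest).map Prod.snd) := by simp
  have hfp1 : ∀ fp ∈ rest, fp.2 ∈ (((f1, q1) :: rest).map Prod.snd) := by
    intro fp hfp
    simp only [List.map_cons, List.mem_cons, List.mem_map]
    exact Or.inr ⟨fp, hfp, rfl⟩
  have hf1 : Adm (δ⁻¹ ^ n) S.Q f1 := htA (f1, q1) (by simp)
  -- translation
  have h1 : lform S c 1 ((fs, g0) :: (f1, q1) :: rest) =
      lform S c f1 (rest.map (fun fp => (fp.1, fp.2 - q1)) ++ [(fs, g0 - q1)]) := by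
    rw [r94_lform_perm S c 1 (List.Perm.swap (f1, q1) (fs, g0) rest), r94_lform_frame]
    refine r94_lform_perm S c f1 ?_
    rw [List.map_cons]
    exact (List.perm_append_singleton _ _).symm
  rw [h1] at hδ
  set Lq1 : List ((ZMod N → ℂ) × Phi m) := rest.map (fun fp => (fp.1, fp.2 - q1)) with hLq1
  have hlen : rest.length + 1 ≤ n := by simpa using hC.le
  have hT : TG S c δ M (2 * n + 1) (B + (μ + 1)) (Y + ((μ + 1 : ℕ) : ℝ) * M) γ lam w
      (Lq1.map Prod.snd) [g0 - q1] := by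
    constructor
    · intro g hg p hp
      rw [List.mem_singleton] at hg
      subst hg
      rcases List.mem_cons.1 hp with h | h
      · subst h
        rw [sub_zero]
        exact r94_Tp_neg (r94_Tp_mono (hC.g q1 hq1) hδ0 hδ1 (by linarith) hlam.le hw.le
          (by omega) le_rfl le_rfl)
      · rw [hLq1, List.map_map] at h
        obtain ⟨fp, hfp, rfl⟩ := List.mem_map.1 h
        show Tp S c δ (2 * n + 1) (B + (μ + 1)) (Y + ((μ + 1 : ℕ) : ℝ) * M) γ lam w
          (g0 - q1 - (fp.2 - q1))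
        rw [sub_sub_sub_cancel_right]
        exact r94_Tp_neg (r94_Tp_mono (hC.g fp.2 (hfp1 fp hfp)) hδ0 hδ1 (by linarith) hlam.le
          hw.le (by omega) le_rfl le_rfl)
    · intro g1 t1 h g hg
      have h2 : t1 = [] := by
        have := congrArg List.tail h
        simpa using this.symm
      rw [h2] at hg
      simp at hg
    · intro p h
      rw [hLq1, List.map_map] at h
      obtain ⟨fp, hfp, rfl⟩ := List.mem_map.1 h
      exact ((hC.bt fp.2 (hfp1 fp hfp)).sub (hC.bt q1 hq1)).mono (by omega)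
    · intro p h
      rw [List.mem_singleton] at h
      subst h
      exact (hC.b0.sub (hC.bt q1 hq1)).mono (by omega)
    · rw [hLq1, List.length_map, List.length_map]
      omega
    · simp
    · simp
  have hLqA : ∀ fp ∈ Lq1, Adm (δ⁻¹ ^ (2 * n + 1)) S.Q fp.1 := by
    intro fp hfp
    obtain ⟨fp', h1, rfl⟩ := List.mem_map.1 hfp
    exact (htA fp' (by simp [h1])).mono (r94_pow_inv_mono hδ0 hδ1 (by omega)) hQ0 le_rfl
  obtain ⟨F1, hF1, hδ3⟩ := H2 S N δ w M (r94_Env_mono hE hn3) Lq1 [(fs, g0 - q1)] f1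
    (fun fp => decide (fp.2 ∉ (VV R : AddSubgroup (Phi m))))
    (fun fp => by simp) hf1.bdd
    (by
      intro fp hfp x
      rw [List.mem_singleton] at hfp
      rw [hfp]
      exact hfs.bdd x) hLqA
    (fun fp hfp => hT.bq fp.2 (List.mem_map_of_mem hfp))
    (by
      have := hT.lq
      rwa [List.length_map] at this)
    ((r94_pow_anti hδ0 hδ1 (by omega)).trans hδ)
  have hVq1 : q1 - g0 ∈ (VV b : AddSubgroup (Phi m)) := hVt (f1, q1) (by simp)
  have hV1 : InvV b (Lq1.filter (fun fp => decide (fp.2 ∉ (VV R : AddSubgroup (Phi m)))))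
      (g0 - q1) ([] : List ((ZMod N → ℂ) × Phi m)) := by
    constructor
    · intro fp hfp
      obtain ⟨fp', h1, rfl⟩ := List.mem_map.1 (List.mem_filter.1 hfp).1
      show fp'.2 - q1 ∈ (VV b : AddSubgroup (Phi m))
      have h2 := sub_mem (hVt fp' (by simp [h1])) hVq1
      rwa [sub_sub_sub_cancel_right] at h2
    · have h2 := neg_mem hVq1
      rwa [neg_sub] at h2
    · intro fp hfp
      simp at hfp
  obtain ⟨g0', t', k1, k2, k3, k5, k4⟩ := H3 S N δ Y lam w M hE hlam (by exact_mod_cast hY) fs F1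
    (Lq1.filter (fun fp => decide (fp.2 ∉ (VV R : AddSubgroup (Phi m))))) (g0 - q1) [] hfs.bdd hF1
    (by simp)
    (by
      intro fp hfp
      have h1 : fp ∈ Lq1 := (List.mem_filter.1 hfp).1
      exact (hLqA fp h1).mono (r94_pow_inv_mono hδ0 hδ1 hn2) hQ0 le_rfl)
    (by
      refine hμ (Phi m) VV tau VV_zero VV_antitone tau_sub_mem _ ?_ ?_
      · rw [List.length_map]
        refine (List.length_filter_le _ _).trans ?_
        have h8 : rest.length + 1 ≤ s := by simpa using ht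
        have h9 : Lq1.length = rest.length := by rw [hLq1, List.length_map]
        omega
      · intro p hp
        obtain ⟨fp, hfp, rfl⟩ := List.mem_map.1 hp
        simpa using (List.mem_filter.1 hfp).2)
    (r94_TG_mono hT hδ0 hδ1 (by linarith) hlam.le hw.le hn2
      le_rfl le_rfl ((List.filter_sublist).map _)) b hV1 hδ3
  refine ⟨g0', t', k1, ?_, k3, k5, k4⟩
  simp only [List.length_nil, zero_add, one_mul] at k2
  omega

end

end Pool.Agent.Helper67.NX2
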