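import Pool.Agent.Helper67.NX2.Defs
import Pool.Agent.Helper55.NX2.AqBasic
import Pool.Agent.Helper40.NX2.IGBasic
import Pool.Agent.Helper82.NX2.Fib
import Pool.Agent.Helper87.NX2.Dil
import Pool.Agent.Helper92.NX2.Bc
import Pool.Agent.Helper30.NX.UsOfTop
import Pool.Agent.Helper85.NX.Form

/-!
# NX2-A31, auxiliary lemmas
-/

set_option autoImplicit false

open Finset
open scoped BigOperators ComplexConjugate

namespace Pool.Agent.Helper67.NX2

open Pool.Agent.Helper57.NX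

noncomputable section

namespace Low94

/-! ### averages along progressions -/
section Aq
variable {N : ℕ} [NeZero N]

omit [NeZero N] in
theorem conj_Aq (st L : ℕ) (f : ZMod N → ℂ) (x : ZMod N) :
    conj (Aq st L f x) = Aq st L (fun y => conj (f y)) x := by
  unfold Aq
  rw [Finset.expect_eq_sum_div_card, Finset.expect_eq_sum_div_card, map_div₀, map_sum,
    Complex.conj_natCast]

omit [NeZero N] in
theorem Aq_const_mul (st L : ℕ) (z : ℂ) (f : ZMod N → ℂ) (x : ZMod N) :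
    Aq st L (fun y => z * f y) x = z * Aq st L f x := by
  rw [Aq, Aq, Finset.mul_expect]

omit [NeZero N] in
/-- `Aq` commutes with translations -/
theorem Aq_shift (st L : ℕ) (f : ZMod N → ℂ) (t x : ZMod N) :
    Aq st L (fun y => f (y + t)) x = Aq st L f (x + t) := by
  unfold Aq
  refine Finset.expect_congr rfl fun a _ => ?_
  dsimp only
  rw [add_right_comm]

theorem nrm_Aqb (st L : ℕ) (hL : 1 ≤ L) (f : ZMod N → ℂ) :
    nrm (Aqb st L f) = nrm (Aq st L f) := by
  unfold nrm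
  rw [← expect_shift_sub5 (fun x => ‖Aq st L f x‖) ((st * (L - 1) : ℕ) : ZMod N)]
  refine Finset.expect_congr rfl fun x _ => ?_
  rw [Aqb_eq st L hL]

theorem sq_expect_le (g : ZMod N → ℝ) : (𝔼 x, g x) ^ 2 ≤ 𝔼 x, g x ^ 2 := by
  set a : ℝ := 𝔼 x, g x with ha
  have h1 : (0 : ℝ) ≤ 𝔼 x : ZMod N, (g x - a) ^ 2 := expect_nonneg fun x _ => sq_nonneg _
  have h2 : (𝔼 x : ZMod N, (g x - a) ^ 2) = (𝔼 x, g x ^ 2) - a ^ 2 := by
    have e1 : ∀ x : ZMod N, (g x - a) ^ 2 = g x ^ 2 - 2 * a * g x + a ^ 2 := fun x => by ring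
    simp_rw [e1]
    rw [Finset.expect_add_distrib, Finset.expect_sub_distrib, ← Finset.mul_expect,
      Finset.expect_const Finset.univ_nonempty, ← ha]
    ring
  linarith

/-- the form of the smoothed conjugate of the dual function -/
theorem form_w {m : ℕ} (S : Sys (m + 1)) (c : Fin (m + 1) → ℝ) (f0 : ZMod N → ℂ)
    (f : Fin (m + 1) → ZMod N → ℂ) (st L : ℕ) (hL : 1 ≤ L) :
    nrm (Aq st L (dual S c 1 f0 f (Fin.last m))) ^ 2 ≤
      ‖form S c 1 f0 (Function.update f (Fin.last m) (fun x => conj (Aq st L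
        (Aqb st L (dual S c 1 f0 f (Fin.last m))) x)))‖ := by
  set F := dual S c 1 f0 f (Fin.last m) with hF
  rw [form_dual, ← hF]
  have e1 : (𝔼 x : ZMod N, conj (Aq st L (Aqb st L F) x) * F x) =
      ((𝔼 x : ZMod N, ‖Aqb st L F x‖ ^ 2 : ℝ) : ℂ) := by
    simp_rw [conj_Aq]
    rw [adj_Aq]
    push_cast
    refine Finset.expect_congr rfl fun x _ => ?_
    rw [mul_comm, Complex.mul_conj, Complex.normSq_eq_norm_sq]
    push_cast
    rfl
  rw [e1, Complex.norm_real, Real.norm_of_nonneg (expect_nonneg fun x _ => sq_nonneg _),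
    ← nrm_Aqb st L hL]
  exact sq_expect_le _

omit [NeZero N] in
/-- functions which are Lipschitz along the progressions have smooth fibres -/
theorem fib_adm {p : ℕ} [NeZero p] {Q q : ℕ} (hN : N = Q * p) {g : ZMod N → ℂ}
    (hg : ∀ x, ‖g x‖ ≤ 1) {L : ℕ}
    (hl : ∀ x, ‖g (x + ((Q * q : ℕ) : ZMod N)) - g x‖ ≤ 2 / L) (e : ℕ) :
    Adm 2 L (fib (p := p) Q q g e) := by
  refine ⟨fun z => hg _, ?_⟩
  have h1 := tv_of_step5 (N := p) (g := fib (p := p) Q q g e) (M := 1) (L := L) zero_le_one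
    (fun z => by
      have h2 := fib_add (p := p) (q := q) hN g e z 1
      rw [Nat.cast_one, mul_one] at h2
      rw [h2, mul_one]
      exact hl _)
  rw [mul_one] at h1
  exact h1

omit [NeZero N] in
theorem A_fib {p : ℕ} [NeZero p] {Q q : ℕ} (hN : N = Q * p) (g : ZMod N → ℂ) (e L : ℕ)
    (z : ZMod p) : A L (fib (p := p) Q q g e) z =
      Aq (Q * q) L g ((Q * (q * z.val) + e : ℕ) : ZMod N) := by
  unfold A Aq
  refine Finset.expect_congr rfl fun a _ => ?_
  exact fib_add hN g e z a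

omit [NeZero N] in
theorem G_mul {p : ℕ} [NeZero p] {Q q : ℕ} (hN : N = Q * p) (g : ZMod N → ℂ) (e : ℕ) :
    (fun z : ZMod p => (fun y : ZMod p => g ((Q * y.val + e : ℕ) : ZMod N)) ((q : ZMod p) * z)) =
      fib (p := p) Q q g e := by
  funext z
  have h1 := fib_fib (p := p) (q := 1) (q' := q) hN g e z
  rw [one_mul] at h1
  rw [← h1]
  unfold fib
  rw [one_mul]

theorem blk_G {p : ℕ} [NeZero p] {Q : ℕ} (hQ : 1 ≤ Q) (hN : N = Q * p) (g : ZMod N → ℂ)
    (e : ℕ) : blk (N := N) Q (fun y : ZMod p => g ((Q * y.val + e : ℕ) : ZMod N)) =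
      fun x => g ((Q * (x.val / Q) + e : ℕ) : ZMod N) := by
  funext x
  unfold blk
  have h1 : x.val / Q < p := by
    rw [Nat.div_lt_iff_lt_mul (by omega), mul_comm, ← hN]
    exact ZMod.val_lt x
  dsimp only
  rw [ZMod.val_natCast, Nat.mod_eq_of_lt h1]

end Aq

/-! ### the top sequence on a progression -/

theorem a_diff {m N : ℕ} [NeZero N] {S : Sys (m + 1)} {c : Fin (m + 1) → ℝ} {x : ℝ} {lam : ℕ}
    (h : IG S c N x lam) (hD : 1 ≤ S.D) {d : ℕ} (hd : c (Fin.last m) = d) {q k0 j J : ℕ}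
    (hj : j ≤ J) (hk : k0 + q * J ≤ S.u + S.T) :
    ∃ τ : ℤ, S.a c (Fin.last m) (k0 + q * j) = S.a c (Fin.last m) k0 + ((S.Q * q : ℕ) : ℤ) * τ ∧
      |(τ : ℝ)| ≤ d * 3 ^ d * lam ^ d * (S.D ^ (d - 1) * J) := by
  have hD0 : 0 < S.D := by linarith
  obtain ⟨r, hr⟩ := h.rho
  have hrl : (r : ℝ) ≤ lam := by
    rw [← hr]
    have := h.good.ρ1
    have h2 : (0 : ℝ) ≤ lam := Nat.cast_nonneg _
    nlinarith
  have hl1 : (1 : ℝ) ≤ lam := by exact_mod_cast h.lam1
  rw [a_nat h hD0 hr _ d hd, a_nat h hD0 hr _ d hd]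
  set A : ℤ := ((lam * (k0 + q * j) + r : ℕ) : ℤ) with hA
  set B : ℤ := ((lam * k0 + r : ℕ) : ℤ) with hB
  have hAB : A - B = (lam : ℤ) * (q * j) := by
    rw [hA, hB]
    push_cast
    ring
  have hgeo := (Commute.all A B).geom_sum₂_mul d
  refine ⟨(lam : ℤ) * j * ∑ i ∈ range d, A ^ i * B ^ (d - 1 - i), ?_, ?_⟩
  · have h1 : A ^ d = B ^ d + (∑ i ∈ range d, A ^ i * B ^ (d - 1 - i)) * (A - B) := by
      rw [hgeo]; ring
    rw [h1, hAB]
    push_cast
    ring
  · -- sizes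
    have hbd : ∀ k : ℕ, k ≤ S.u + S.T → |(((lam * k + r : ℕ) : ℤ) : ℝ)| ≤ 3 * (lam * S.D) := by
      intro k hk
      have h1 : (k : ℝ) ≤ S.u + S.T := by exact_mod_cast hk
      have h2 := h.good.u2
      rw [abs_of_nonneg (by positivity)]
      push_cast
      have h3 : (lam : ℝ) * k ≤ lam * (2 * S.D) :=
        mul_le_mul_of_nonneg_left (h1.trans h2) (by positivity)
      nlinarith
    have hA' : |(A : ℝ)| ≤ 3 * (lam * S.D) := by
      refine hbd _ (le_trans ?_ hk)
      have := Nat.mul_le_mul_left q hj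
      omega
    have hB' : |(B : ℝ)| ≤ 3 * (lam * S.D) := hbd _ (by
      have := Nat.zero_le (q * J)
      omega)
    have hsum : |∑ i ∈ range d, (A : ℝ) ^ i * (B : ℝ) ^ (d - 1 - i)| ≤
        d * (3 * (lam * S.D)) ^ (d - 1) := by
      refine (Finset.abs_sum_le_sum_abs _ _).trans ?_
      refine (Finset.sum_le_card_nsmul _ _ ((3 * (lam * S.D)) ^ (d - 1)) fun i hi => ?_).trans
        (by rw [card_range, nsmul_eq_mul])
      rw [abs_mul, abs_pow, abs_pow]
      have hi' := Finset.mem_range.1 hi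
      calc |(A : ℝ)| ^ i * |(B : ℝ)| ^ (d - 1 - i)
          ≤ (3 * (lam * S.D)) ^ i * (3 * (lam * S.D)) ^ (d - 1 - i) :=
            mul_le_mul (pow_le_pow_left₀ (abs_nonneg _) hA' _)
              (pow_le_pow_left₀ (abs_nonneg _) hB' _) (by positivity) (by positivity)
        _ = (3 * (lam * S.D)) ^ (d - 1) := by
            rw [← pow_add]
            congr 1
            omega
    push_cast
    rw [abs_mul, abs_mul, Nat.abs_cast, Nat.abs_cast]
    have hjJ : (j : ℝ) ≤ J := by exact_mod_cast hj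
    rcases Nat.eq_zero_or_pos d with hd0 | hd0
    · subst hd0
      simp
    · calc (lam : ℝ) * j * |∑ i ∈ range d, (A : ℝ) ^ i * (B : ℝ) ^ (d - 1 - i)|
          ≤ lam * J * (d * (3 * (lam * S.D)) ^ (d - 1)) := by gcongr
        _ = d * 3 ^ (d - 1) * (lam * lam ^ (d - 1)) * (S.D ^ (d - 1) * J) := by
            rw [mul_pow, mul_pow]
            ring
        _ = d * 3 ^ (d - 1) * lam ^ d * (S.D ^ (d - 1) * J) := by
            rw [← pow_succ', Nat.sub_add_cancel hd0]
        _ ≤ d * 3 ^ d * lam ^ d * (S.D ^ (d - 1) * J) := by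
            have : (3 : ℝ) ^ (d - 1) ≤ 3 ^ d :=
              pow_le_pow_right₀ (by norm_num) (Nat.sub_le _ _)
            gcongr

end Low94

end

end Pool.Agent.Helper67.NX2
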