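import Pool.Agent.Helper94.NX2.LowStep

/-!
# NX2-A31, the lower functions (from the conclusion of `ar_top`)
-/

set_option autoImplicit false

open Finset
open scoped BigOperators ComplexConjugate

namespace Pool.Agent.Helper67.NX2

open Pool.Agent.Helper57.NX

noncomputable section

namespace Low94

open Pool.Agent.Helper57.NX.US10 (floor_half)

theorem pow_lower {D σ δ t : ℝ} (hD : 1 ≤ D) (hδ : D ^ (-σ) ≤ δ) {n : ℕ} (h : σ * n ≤ t) :
    D ^ (-t) ≤ δ ^ n := by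
  have hD0 : 0 < D := by linarith
  calc D ^ (-t) ≤ D ^ (-σ * (n : ℝ)) := Real.rpow_le_rpow_of_exponent_le hD (by linarith)
    _ = (D ^ (-σ)) ^ n := Real.rpow_mul_natCast hD0.le _ _
    _ ≤ δ ^ n := pow_le_pow_left₀ (Real.rpow_nonneg hD0.le _) hδ n

theorem pow_upper {D σ δ t : ℝ} (hD : 1 ≤ D) (hδ0 : 0 < δ) (hδ : D ^ (-σ) ≤ δ) {n : ℕ}
    (h : σ * n ≤ t) : δ⁻¹ ^ n ≤ D ^ t := by
  have hD0 : 0 < D := by linarith
  have h1 := pow_lower hD hδ h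
  rw [inv_pow, inv_le_comm₀ (pow_pos hδ0 n) (Real.rpow_pos_of_pos hD0 _), ← Real.rpow_neg hD0.le]
  exact h1

theorem low_core (m : ℕ) (c : Fin (m + 1) → ℝ) (hc : Ex c) (d : ℕ)
    (hd : c (Fin.last m) = d) (s : ℝ) (hs0 : 0 < s)
    (har : ∀ ε : ℝ, 0 < ε → ∃ x0 : ℝ, 0 < x0 ∧ ∃ C : ℕ, ∃ σ : ℝ, 0 < σ ∧ ∃ D0 : ℝ,
      ArC m c s ε x0 C σ D0)
    (hdag : ∀ κ : ℝ, 0 < κ → ∃ x0 : ℝ, 0 < x0 ∧ ∃ C : ℕ, ∃ σ : ℝ, 0 < σ ∧ ∃ D0 : ℝ,
      ∀ (S : Sys (m + 1)) (N : ℕ) [NeZero N] (lam : ℕ), D0 ≤ S.D → IG S c N x0 lam →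
      ∀ δ : ℝ, S.D ^ (-σ) ≤ δ → δ ≤ 1 / 2 → (lam : ℝ) ≤ δ⁻¹ →
      ∀ (f0 : ZMod N → ℂ) (f : Fin (m + 1) → ZMod N → ℂ),
      Adm δ⁻¹ S.Q f0 → (∀ i, Adm δ⁻¹ S.Q (f i)) → δ ≤ ‖form S c 1 f0 f‖ →
      ∃ q : ℕ, 1 ≤ q ∧ (q : ℝ) ≤ δ⁻¹ ^ C ∧ ∀ L : ℕ, 1 ≤ L → (L : ℝ) ≤ S.D ^ (s - κ) →
        δ ^ C ≤ nrm (Aq (S.Q * q) L (dual S c 1 f0 f (Fin.last m))))
    (hU : ∀ ε : ℝ, 0 < ε → UPm m (fun i => c i.castSucc) ε) :
    ∀ ε : ℝ, 0 < ε → UsJ m c 0 ε (univ.erase (Fin.last m)) := by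
  intro ε hε
  have hc0 : ∀ i, 0 < c i := fun i => by linarith [hc.two i]
  have hd2 : 2 ≤ d := by
    have := hc.two (Fin.last m)
    rw [hd] at this
    exact_mod_cast this
  obtain ⟨x1, hx1, C1, σ1, hσ1, D1, h1⟩ := hU (ε / 2) (half_pos hε)
  obtain ⟨x4, hx4, σ4, hσ4, D4, h4⟩ := IG.dil c hc0 x1 hx1
  obtain ⟨ε2, hε2, hε2x, hε21⟩ : ∃ ε2 : ℝ, 0 < ε2 ∧ 6 * ε2 ≤ x1 ∧ 8 * ε2 ≤ 1 :=
    ⟨min (x1 / 6) (1 / 8), by positivity, by linarith [min_le_left (x1 / 6) (1 / 8 : ℝ)],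
      by linarith [min_le_right (x1 / 6) (1 / 8 : ℝ)]⟩
  obtain ⟨x2, hx2, C2, σ2, hσ2, D2, h2⟩ := har ε2 hε2
  obtain ⟨κ, hκ, hκσ, hκs⟩ : ∃ κ : ℝ, 0 < κ ∧ κ ≤ σ2 / 2 ∧ κ ≤ s / 2 :=
    ⟨min (σ2 / 2) (s / 2), by positivity, min_le_left _ _, min_le_right _ _⟩
  obtain ⟨x3, hx3, C3, σ3, hσ3, D3, h3⟩ := hdag κ hκ
  obtain ⟨Cb, hCb⟩ := bc m
  -- the exponents
  obtain ⟨e1, he1⟩ : ∃ e1 : ℕ, e1 = 2 * C3 + 3 := ⟨_, rfl⟩
  obtain ⟨nc, hnc⟩ : ∃ nc : ℕ, nc = e1 * (Cb + 3) + C3 + 2 := ⟨_, rfl⟩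
  obtain ⟨nu, hnu⟩ : ∃ nu : ℕ, nu = 2 * C3 + m + 6 := ⟨_, rfl⟩
  obtain ⟨K, hK⟩ : ∃ K : ℕ, K = nc * C2 + nc + nu + e1 * Cb + 2 * C3 + 2 := ⟨_, rfl⟩
  obtain ⟨σ, hσ, hσa, hσb⟩ : ∃ σ : ℝ, 0 < σ ∧ σ ≤ σ3 ∧
      σ * K ≤ min (min σ1 σ2) (min (min σ4 ε2) 1) / 4 := by
    refine ⟨min σ3 (min (min σ1 σ2) (min (min σ4 ε2) 1) / (4 * (K + 1))), by positivity,
      min_le_left _ _, ?_⟩
    have hK0 : (0 : ℝ) ≤ K := Nat.cast_nonneg _
    calc _ ≤ min (min σ1 σ2) (min (min σ4 ε2) 1) / (4 * (K + 1)) * K :=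
          mul_le_mul_of_nonneg_right (min_le_right _ _) hK0
      _ ≤ min (min σ1 σ2) (min (min σ4 ε2) 1) / (4 * (K + 1)) * (K + 1) :=
          mul_le_mul_of_nonneg_left (by linarith) (by positivity)
      _ = _ := by field_simp
  have hσc : ∀ n : ℕ, n ≤ K → σ * n ≤ σ1 / 4 ∧ σ * n ≤ σ2 / 4 ∧ σ * n ≤ σ4 / 4 ∧
      σ * n ≤ ε2 / 4 ∧ σ * n ≤ 1 / 4 := by
    intro n hn
    have hn' : (n : ℝ) ≤ K := by exact_mod_cast hn
    have h5 : σ * n ≤ min (min σ1 σ2) (min (min σ4 ε2) 1) / 4 :=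
      (mul_le_mul_of_nonneg_left hn' hσ.le).trans hσb
    have m1 : min (min σ1 σ2) (min (min σ4 ε2) 1) ≤ σ1 :=
      (min_le_left _ _).trans (min_le_left _ _)
    have m2 : min (min σ1 σ2) (min (min σ4 ε2) 1) ≤ σ2 :=
      (min_le_left _ _).trans (min_le_right _ _)
    have m3 : min (min σ1 σ2) (min (min σ4 ε2) 1) ≤ σ4 :=
      (min_le_right _ _).trans ((min_le_left _ _).trans (min_le_left _ _))
    have m4 : min (min σ1 σ2) (min (min σ4 ε2) 1) ≤ ε2 :=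
      (min_le_right _ _).trans ((min_le_left _ _).trans (min_le_right _ _))
    have m5 : min (min σ1 σ2) (min (min σ4 ε2) 1) ≤ 1 :=
      (min_le_right _ _).trans (min_le_right _ _)
    refine ⟨?_, ?_, ?_, ?_, ?_⟩ <;> linarith
  obtain ⟨x0, hx0, hx0a, hx0b, hx0c, hx0d⟩ : ∃ x0 : ℝ, 0 < x0 ∧ x0 ≤ x2 ∧ x0 ≤ x3 ∧ x0 ≤ x4 ∧
      x0 ≤ ε2 / 2 := by
    refine ⟨min (min x2 x3) (min x4 (ε2 / 2)), by positivity, ?_, ?_, ?_, ?_⟩
    · exact (min_le_left _ _).trans (min_le_left _ _)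
    · exact (min_le_left _ _).trans (min_le_right _ _)
    · exact (min_le_right _ _).trans (min_le_left _ _)
    · exact (min_le_right _ _).trans (min_le_right _ _)
  obtain ⟨W, hW⟩ : ∃ W : ℝ, W = 32 * (d * 3 ^ d) + 64 := ⟨_, rfl⟩
  have hW64 : 64 ≤ W := by
    rw [hW]
    have : (0 : ℝ) ≤ 32 * (d * 3 ^ d) := by positivity
    linarith
  obtain ⟨K4, hK4, hK41⟩ : ∃ K4 : ℝ, (∀ i, (4 : ℝ) ^ (c i) ≤ K4) ∧ 1 ≤ K4 := by
    refine ⟨1 + ∑ i, (4 : ℝ) ^ (c i), fun i => ?_, ?_⟩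
    · have := Finset.single_le_sum (f := fun i => (4 : ℝ) ^ (c i)) (fun i _ => by positivity)
        (Finset.mem_univ i)
      linarith
    · have : 0 ≤ ∑ i, (4 : ℝ) ^ (c i) := Finset.sum_nonneg fun i _ => by positivity
      linarith
  -- the threshold
  refine ⟨x0, hx0, nu * C1, σ, hσ, max (max (max D2 D3) (max D4 ((max D1 1) ^ (2 : ℕ))))
    (max (max (W ^ (2 / ε2)) (2 ^ (2 / σ2))) (max (K4 ^ (2 / ε)) 256)), ?_⟩
  intro S N _ lam hD hIG δ hδσ hδ2 hlam X hQX hX f0 f hf0 hf hfX hform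
  have hDa : max (max D2 D3) (max D4 ((max D1 1) ^ (2 : ℕ))) ≤ S.D := (le_max_left _ _).trans hD
  have hDb : max (max (W ^ (2 / ε2)) (2 ^ (2 / σ2))) (max (K4 ^ (2 / ε)) 256) ≤ S.D :=
    (le_max_right _ _).trans hD
  have hD2 : D2 ≤ S.D := ((le_max_left _ _).trans (le_max_left _ _)).trans hDa
  have hD3 : D3 ≤ S.D := ((le_max_right _ _).trans (le_max_left _ _)).trans hDa
  have hD4 : D4 ≤ S.D := ((le_max_left _ _).trans (le_max_right _ _)).trans hDa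
  have hD1' : (max D1 1) ^ (2 : ℕ) ≤ S.D := ((le_max_right _ _).trans (le_max_right _ _)).trans hDa
  have hDW : W ^ (2 / ε2) ≤ S.D := ((le_max_left _ _).trans (le_max_left _ _)).trans hDb
  have hDσ : (2 : ℝ) ^ (2 / σ2) ≤ S.D := ((le_max_right _ _).trans (le_max_left _ _)).trans hDb
  have hDK : K4 ^ (2 / ε) ≤ S.D := ((le_max_left _ _).trans (le_max_right _ _)).trans hDb
  have hD256 : (256 : ℝ) ≤ S.D := ((le_max_right _ _).trans (le_max_right _ _)).trans hDb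
  have hD1 : 1 ≤ S.D := by linarith
  have hD0 : 0 < S.D := by linarith
  have hWD : W ≤ S.D ^ (ε2 / 2) := by
    have h5 := Real.rpow_le_rpow (by positivity) hDW (by positivity : 0 ≤ ε2 / 2)
    rw [← Real.rpow_mul (by linarith)] at h5
    have h6 : 2 / ε2 * (ε2 / 2) = 1 := by field_simp
    rwa [h6, Real.rpow_one] at h5
  have hσD : 2 ≤ S.D ^ (σ2 / 2) := by
    have h5 := Real.rpow_le_rpow (by positivity) hDσ (by positivity : 0 ≤ σ2 / 2)
    rw [← Real.rpow_mul (by norm_num)] at h5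
    have h6 : 2 / σ2 * (σ2 / 2) = 1 := by field_simp
    rwa [h6, Real.rpow_one] at h5
  have hKD : K4 ≤ S.D ^ (ε / 2) := by
    have h5 := Real.rpow_le_rpow (by positivity) hDK (by positivity : 0 ≤ ε / 2)
    rw [← Real.rpow_mul (by linarith)] at h5
    have h6 : 2 / ε * (ε / 2) = 1 := by field_simp
    rwa [h6, Real.rpow_one] at h5
  have hδ0 : 0 < δ := (Real.rpow_pos_of_pos hD0 _).trans_le hδσ
  have hinv2 : 2 ≤ δ⁻¹ := by
    rw [le_inv_comm₀ two_pos hδ0]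
    linarith
  have hinv1 : 1 ≤ δ⁻¹ := by linarith
  have hgood := hIG.good
  have hQ0 : (0 : ℝ) < S.Q := (Real.rpow_pos_of_pos hD0 _).trans_le hgood.Q1
  have hT0 : (0 : ℝ) < S.T := (Real.rpow_pos_of_pos hD0 _).trans_le hgood.T1
  have hI : S.I.Nonempty := by
    have : 0 < S.T := by exact_mod_cast hT0
    unfold Sys.I
    exact Finset.nonempty_Ico.2 (by omega)
  -- the progressions
  obtain ⟨q, hq1, hq2, hq3⟩ := h3 S N lam hD3 (hIG.mono hx0b hD1) δ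
    ((Real.rpow_le_rpow_of_exponent_le hD1 (by linarith)).trans hδσ) hδ2 hlam f0 f hf0 hf hform
  have hq0 : (0 : ℝ) < q := by exact_mod_cast hq1
  have hqD : (q : ℝ) ≤ S.D ^ (ε2 / 4) :=
    hq2.trans (pow_upper hD1 hδ0 hδσ (hσc C3 (by omega)).2.2.2.1)
  obtain ⟨L1, hL11, hL1a, hL1b⟩ : ∃ L1 : ℕ, 1 ≤ L1 ∧ (L1 : ℝ) ≤ S.D ^ (s - κ) ∧
      S.D ^ (s - κ) / 2 ≤ L1 := by
    have hy : (1 : ℝ) ≤ S.D ^ (s - κ) := Real.one_le_rpow hD1 (by linarith)
    exact ⟨_, (Nat.one_le_floor_iff _).2 hy, Nat.floor_le (by linarith), floor_half hy⟩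
  have hL1s : S.D ^ (s - σ2) ≤ (L1 : ℝ) := by
    refine le_trans ?_ hL1b
    rw [le_div_iff₀ two_pos]
    calc S.D ^ (s - σ2) * 2 ≤ S.D ^ (s - σ2) * S.D ^ (σ2 / 2) :=
          mul_le_mul_of_nonneg_left hσD (Real.rpow_nonneg hD0.le _)
      _ = S.D ^ (s - σ2 / 2) := by
          rw [← Real.rpow_add hD0]
          congr 1
          ring
      _ ≤ _ := Real.rpow_le_rpow_of_exponent_le hD1 (by linarith)
  have hN1 := hq3 L1 hL11 hL1a
  obtain ⟨st, hst⟩ : ∃ st : ℕ, st = S.Q * q := ⟨_, rfl⟩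
  rw [← hst] at hN1
  obtain ⟨F, hF⟩ : ∃ F : ZMod N → ℂ, F = dual S c 1 f0 f (Fin.last m) := ⟨_, rfl⟩
  have hFA : Adm (((m + 1 : ℕ) : ℝ) * δ⁻¹) S.Q F := by
    rw [hF]
    exact Adm.dual hQ0 S c 1 (fun k => by simp) (Fin.last m) hf0 (fun j _ => hf j) hI
  obtain ⟨w, hw⟩ : ∃ w : ZMod N → ℂ, w = fun x => conj (Aq st L1 (Aqb st L1 F) x) := ⟨_, rfl⟩
  have hwA : Adm (((m + 1 : ℕ) : ℝ) * δ⁻¹) S.Q w := by
    rw [hw]
    exact (Adm.aq (Adm.aqb hFA st L1) st L1).cnj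
  have hwb := hwA.bdd
  have hwl : ∀ x, ‖w (x + ((S.Q * q : ℕ) : ZMod N)) - w x‖ ≤ 2 / L1 := by
    intro x
    have h5 := Aq_lipschitz (f := Aqb st L1 F) (fun x => norm_Aqb_le hFA.bdd st L1 x) st L1 hL11 x 1
    rw [hw, ← hst]
    dsimp only
    rw [← map_sub, Complex.norm_conj]
    have h6 : (((st : ℤ) * 1 : ℤ) : ZMod N) = ((st : ℕ) : ZMod N) := by push_cast; ring
    rw [h6] at h5
    refine h5.trans (le_of_eq ?_)
    norm_num
  have hwform : δ ^ (2 * C3) ≤ ‖form S c 1 f0 (Function.update f (Fin.last m) w)‖ := by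
    have h5 := form_w S c f0 f st L1 hL11
    rw [← hF, ← hw] at h5
    rw [← hF] at hN1
    refine le_trans ?_ h5
    rw [mul_comm 2 C3, pow_mul]
    exact pow_le_pow_left₀ (pow_pos hδ0 _).le hN1 2
  -- the two lengths
  have hPm : S.P (Fin.last m) = S.Q * (lam * S.D) ^ d := hIG.Pint (Fin.last m) d hd
  have hlam1 : (1 : ℝ) ≤ lam := by exact_mod_cast hIG.lam1
  have hlD : S.D ^ (2 : ℝ) ≤ (lam * S.D) ^ d := by
    have h5 : S.D ≤ lam * S.D := le_mul_of_one_le_left hD0.le hlam1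
    calc S.D ^ (2 : ℝ) = S.D ^ (2 : ℕ) := by norm_cast
      _ ≤ S.D ^ d := pow_le_pow_right₀ hD1 hd2
      _ ≤ (lam * S.D) ^ d := pow_le_pow_left₀ hD0.le h5 d
  have hlD0 : 0 < (lam * S.D) ^ d := by positivity
  have hy : ∀ t : ℝ, t ≤ 2 * ε2 → 1 ≤ (lam * S.D) ^ d * S.D ^ (-t) / q := by
    intro t ht
    rw [le_div_iff₀ hq0, one_mul]
    calc (q : ℝ) ≤ S.D ^ (ε2 / 4) := hqD
      _ ≤ S.D ^ (2 - t) := Real.rpow_le_rpow_of_exponent_le hD1 (by linarith)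
      _ = S.D ^ (2 : ℝ) * S.D ^ (-t) := by
          rw [← Real.rpow_add hD0]
          congr 1
      _ ≤ _ := mul_le_mul_of_nonneg_right hlD (Real.rpow_nonneg hD0.le _)
  have hy2 := hy (2 * ε2) le_rfl
  have hy3 := hy ε2 (by linarith)
  obtain ⟨L2, hL21, hL2a, hL2b⟩ : ∃ L2 : ℕ, 1 ≤ L2 ∧
      (L2 : ℝ) ≤ (lam * S.D) ^ d * S.D ^ (-(2 * ε2)) / q ∧
      (lam * S.D) ^ d * S.D ^ (-(2 * ε2)) / q / 2 ≤ L2 :=
    ⟨_, (Nat.one_le_floor_iff _).2 hy2, Nat.floor_le (by linarith), floor_half hy2⟩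
  obtain ⟨L3, hL31, hL3a, hL3b⟩ : ∃ L3 : ℕ, 1 ≤ L3 ∧
      (L3 : ℝ) ≤ (lam * S.D) ^ d * S.D ^ (-ε2) / q ∧
      (lam * S.D) ^ d * S.D ^ (-ε2) / q / 2 ≤ L3 :=
    ⟨_, (Nat.one_le_floor_iff _).2 hy3, Nat.floor_le (by linarith), floor_half hy3⟩
  have hL20 : (0 : ℝ) < L2 := by exact_mod_cast hL21
  have hL30 : (0 : ℝ) < L3 := by exact_mod_cast hL31
  have hL10 : (0 : ℝ) < L1 := by exact_mod_cast hL11
  obtain ⟨g, hg⟩ : ∃ g : ZMod N → ℂ, g = Aq st L2 w := ⟨_, rfl⟩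
  have hgA : Adm (((m + 1 : ℕ) : ℝ) * δ⁻¹) S.Q g := by
    rw [hg]
    exact Adm.aq hwA st L2
  have hgb := hgA.bdd
  have hgl : ∀ x, ‖g (x + ((S.Q * q : ℕ) : ZMod N)) - g x‖ ≤ 2 / L1 := by
    intro x
    rw [hg, ← Aq_shift]
    have h5 := congrFun (Aq_sub st L2 (fun y => w (y + ((S.Q * q : ℕ) : ZMod N))) w) x
    rw [← h5]
    exact norm_expect_le_of5 _ _ (by positivity) fun a _ => hwl _
  obtain ⟨u, hu⟩ : ∃ u : ZMod N → ℂ, u = fun x => (1 / 2 : ℂ) * (w x - g x) := ⟨_, rfl⟩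
  have hub : ∀ x, ‖u x‖ ≤ 1 := by
    intro x
    rw [hu]
    dsimp only
    rw [norm_mul, norm_div, norm_one, Complex.norm_ofNat]
    have h5 := norm_sub_le (w x) (g x)
    have h6 := hwb x
    have h7 := hgb x
    linarith
  have hul : ∀ x, ‖u (x + ((S.Q * q : ℕ) : ZMod N)) - u x‖ ≤ 2 / L1 := by
    intro x
    rw [hu]
    dsimp only
    rw [← mul_sub, norm_mul, norm_div, norm_one, Complex.norm_ofNat]
    have h5 : ‖w (x + ((S.Q * q : ℕ) : ZMod N)) - g (x + ((S.Q * q : ℕ) : ZMod N)) - (w x - g x)‖ ≤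
        2 / L1 + 2 / L1 := by
      have e2 : w (x + ((S.Q * q : ℕ) : ZMod N)) - g (x + ((S.Q * q : ℕ) : ZMod N)) - (w x - g x) =
          (w (x + ((S.Q * q : ℕ) : ZMod N)) - w x) - (g (x + ((S.Q * q : ℕ) : ZMod N)) - g x) := by
        ring
      rw [e2]
      exact (norm_sub_le _ _).trans (add_le_add (hwl x) (hgl x))
    linarith
  -- decomposition
  have hdec : form S c 1 f0 (Function.update f (Fin.last m) w) =
      2 * form S c 1 f0 (Function.update f (Fin.last m) u)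
      + form S c 1 f0 (Function.update f (Fin.last m) g) := by
    rw [← form_update_smul, ← form_update_add]
    congr 2
    funext x
    rw [hu]
    dsimp only
    ring
  -- powers of `δ`
  have hpow : ∀ a b : ℕ, a ≤ b → δ ^ b ≤ δ ^ a := fun a b h =>
    pow_le_pow_of_le_one hδ0.le (by linarith) h
  have hpowi : ∀ a b : ℕ, a ≤ b → δ⁻¹ ^ a ≤ δ⁻¹ ^ b := fun a b h =>
    pow_le_pow_right₀ hinv1 h
  have hhalf : ∀ a : ℕ, 1 ≤ a → δ ^ a ≤ 1 / 2 := fun a h =>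
    (hpow 1 a h).trans (by rw [pow_one]; exact hδ2)
  -- the first term is small
  have hsmall : ‖form S c 1 f0 (Function.update f (Fin.last m) u)‖ < δ ^ e1 := by
    by_contra hcon
    push Not at hcon
    rw [snoc_init] at hcon
    have hB : ∀ x, ‖Aq (S.Q * q) L3 u x‖ ≤ L2 / L3 := by
      intro x
      rw [← hst, hu, Aq_const_mul, norm_mul, norm_div, norm_one, Complex.norm_ofNat, hg]
      have h5 := Aq_small hwb st L3 L2 hL31 hL21 x
      calc _ ≤ 1 / 2 * (2 * (L2 : ℝ) / L3) := mul_le_mul_of_nonneg_left h5 (by norm_num)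
        _ = L2 / L3 := by ring
    have hlong := long (δb := δ ^ e1) (δc := δ ^ nc) hd h2 hCb hD2 hD1 (hIG.mono hx0a hD1)
      (pow_pos hδ0 _) (hhalf _ (by omega)) (by
        rw [← inv_pow, ← pow_mul]
        calc δ⁻¹ ^ (e1 * Cb) ≤ S.D ^ (1 / 4 : ℝ) :=
              pow_upper hD1 hδ0 hδσ (hσc _ (by omega)).2.2.2.2
          _ ≤ S.D ^ (2 : ℝ) := Real.rpow_le_rpow_of_exponent_le hD1 (by norm_num)
          _ ≤ S.Q := hgood.Q1)
      (pow_lower hD1 hδσ (by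
        have := (hσc nc (by omega)).2.1
        linarith)) (hhalf _ (by omega))
      (by
        rw [← inv_pow]
        refine hlam.trans ?_
        calc δ⁻¹ = δ⁻¹ ^ 1 := (pow_one _).symm
          _ ≤ _ := hpowi _ _ (by omega))
      (by
        rw [← pow_mul]
        refine hpow _ _ ?_
        have : e1 * (Cb + 3) = e1 * Cb + e1 * 3 := mul_add _ _ _
        omega)
      (by
        rw [← inv_pow, ← inv_pow, ← pow_mul]
        refine hpowi _ _ ?_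
        have : e1 * (Cb + 3) = e1 * Cb + e1 * 3 := mul_add _ _ _
        omega) hq1
      (by
        rw [← inv_pow]
        exact hq2.trans (hpowi _ _ (by omega))) hL11 hL1s
      (hf0.mono (by
        rw [← inv_pow]
        calc δ⁻¹ = δ⁻¹ ^ 1 := (pow_one _).symm
          _ ≤ _ := hpowi _ _ (by omega)) hQ0 le_rfl)
      (fun i => (hf i.castSucc).mono (by
        rw [← inv_pow]
        calc δ⁻¹ = δ⁻¹ ^ 1 := (pow_one _).symm
          _ ≤ _ := hpowi _ _ (by omega)) hQ0 le_rfl) hub hul hcon hL31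
      (by
        rw [hPm]
        calc (L3 : ℝ) * (S.Q * q) ≤ (lam * S.D) ^ d * S.D ^ (-ε2) / q * (S.Q * q) :=
              mul_le_mul_of_nonneg_right hL3a (by positivity)
          _ = S.Q * (lam * S.D) ^ d * S.D ^ (-ε2) := by field_simp) hB
    rw [← pow_mul] at hlong
    have h5 : (L2 / L3 : ℝ) ≤ 2 * S.D ^ (-ε2) := by
      rw [div_le_iff₀ hL30]
      calc (L2 : ℝ) ≤ (lam * S.D) ^ d * S.D ^ (-(2 * ε2)) / q := hL2a
        _ = 2 * S.D ^ (-ε2) * ((lam * S.D) ^ d * S.D ^ (-ε2) / q / 2) := by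
            have : S.D ^ (-(2 * ε2)) = S.D ^ (-ε2) * S.D ^ (-ε2) := by
              rw [← Real.rpow_add hD0]
              congr 1
              ring
            rw [this]
            ring
        _ ≤ _ := mul_le_mul_of_nonneg_left hL3b (by positivity)
    have h6 : S.D ^ (-(ε2 / 2)) ≤ δ ^ (nc * C2) := pow_lower hD1 hδσ (by
      have := (hσc (nc * C2) (by omega)).2.2.2.1
      linarith)
    have h7 : S.D ^ (-(ε2 / 2)) ≤ 2 * S.D ^ (-ε2) := h6.trans (hlong.trans h5)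
    have h8 : S.D ^ (ε2 / 2) ≤ 2 := by
      have h9 := mul_le_mul_of_nonneg_right h7 (Real.rpow_nonneg hD0.le ε2)
      rw [mul_assoc, ← Real.rpow_add hD0, ← Real.rpow_add hD0] at h9
      have h10 : -(ε2 / 2) + ε2 = ε2 / 2 := by ring
      have h11 : -ε2 + ε2 = 0 := by ring
      rw [h10, h11, Real.rpow_zero, mul_one] at h9
      exact h9
    linarith
  obtain ⟨η, hη⟩ : ∃ η : ℝ, η = δ ^ (2 * C3 + 1) := ⟨_, rfl⟩
  have hη0 : 0 < η := by rw [hη]; positivity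
  have hgform : η ≤ ‖form S c 1 f0 (Function.update f (Fin.last m) g)‖ := by
    have h5 : ‖form S c 1 f0 (Function.update f (Fin.last m) w)‖ ≤
        2 * ‖form S c 1 f0 (Function.update f (Fin.last m) u)‖
        + ‖form S c 1 f0 (Function.update f (Fin.last m) g)‖ := by
      rw [hdec]
      refine (norm_add_le _ _).trans ?_
      rw [norm_mul, Complex.norm_ofNat]
    have h6 : δ ^ e1 ≤ δ ^ (2 * C3) / 8 := by
      rw [he1, pow_add]
      have h7 : δ ^ 3 ≤ 1 / 8 := by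
        calc δ ^ 3 ≤ (1 / 2) ^ 3 := pow_le_pow_left₀ hδ0.le hδ2 3
          _ = 1 / 8 := by norm_num
      have := mul_le_mul_of_nonneg_left h7 (pow_pos hδ0 (2 * C3)).le
      linarith
    have h7 : η ≤ δ ^ (2 * C3) / 2 := by
      rw [hη, pow_succ]
      have := mul_le_mul_of_nonneg_left hδ2 (pow_pos hδ0 (2 * C3)).le
      linarith
    have h8 := pow_pos hδ0 (2 * C3)
    linarith
  -- the short intervals
  have hT1 : (1 : ℝ) ≤ S.D ^ (1 - 3 * ε2) := Real.one_le_rpow hD1 (by linarith)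
  obtain ⟨J, hJ0, hJa, hJb⟩ : ∃ J : ℕ, 0 < J ∧ S.D ^ (1 - 3 * ε2) ≤ J ∧
      (J : ℝ) ≤ 2 * S.D ^ (1 - 3 * ε2) := by
    refine ⟨⌈S.D ^ (1 - 3 * ε2)⌉₊, Nat.ceil_pos.2 (by linarith), Nat.le_ceil _, ?_⟩
    have := Nat.ceil_lt_add_one (show 0 ≤ S.D ^ (1 - 3 * ε2) by linarith)
    linarith
  have hηD : S.D ^ (-(ε2 / 4)) ≤ η := by
    rw [hη]
    exact pow_lower hD1 hδσ (hσc _ (by omega)).2.2.2.1
  have hTD : S.D ^ (1 - ε2 / 2) ≤ S.T :=
    (Real.rpow_le_rpow_of_exponent_le hD1 (by linarith)).trans hgood.T1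
  have hWD2 : W ≤ S.D ^ (2 * ε2) :=
    hWD.trans (Real.rpow_le_rpow_of_exponent_le hD1 (by linarith))
  have hqJ : 4 * (q : ℝ) * J ≤ η * S.T := by
    calc 4 * (q : ℝ) * J ≤ 4 * S.D ^ (ε2 / 4) * (2 * S.D ^ (1 - 3 * ε2)) := by gcongr
      _ = S.D ^ (ε2 / 4) * S.D ^ (1 - 3 * ε2) * 8 := by ring
      _ ≤ S.D ^ (ε2 / 4) * S.D ^ (1 - 3 * ε2) * S.D ^ (2 * ε2) := by
          gcongr
          linarith
      _ = S.D ^ (-(ε2 / 4)) * S.D ^ (1 - ε2 / 2) := by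
          rw [← Real.rpow_add hD0, ← Real.rpow_add hD0, ← Real.rpow_add hD0]
          congr 1
          ring
      _ ≤ η * S.T := mul_le_mul hηD hTD (Real.rpow_nonneg hD0.le _) hη0.le
  have hfb : ∀ (i : Fin (m + 1)) (x : ZMod N),
      ‖(Fin.snoc (α := fun _ => ZMod N → ℂ) (fun i : Fin m => f i.castSucc) g i) x‖ ≤ 1 := by
    intro i x
    refine Fin.lastCases ?_ (fun i => ?_) i
    · rw [Fin.snoc_last]; exact hgb x
    · rw [Fin.snoc_castSucc]; exact (hf i.castSucc).bdd x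
  obtain ⟨r0, u', hr0, hu1, hu2, hu3⟩ := exists_window S η q J hq1 hJ0 hqJ
    (fun k => 𝔼 x, f0 x * ∏ i : Fin (m + 1),
      (Fin.snoc (α := fun _ => ZMod N → ℂ) (fun i : Fin m => f i.castSucc) g i)
        (x + (S.a c i k : ZMod N)))
    (fun k => norm_expect_le_of5 _ _ zero_le_one fun x _ => by
      rw [norm_mul, norm_prod]
      exact mul_le_one₀ (hf0.bdd x) (Finset.prod_nonneg fun i _ => norm_nonneg _)
        (Finset.prod_le_one (fun i _ => norm_nonneg _) fun i _ => hfb i _))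
    (by
      rw [snoc_init] at hgform
      unfold form at hgform
      simpa only [Pi.one_apply, one_mul] using hgform) hη0
  -- `J ≤ u'`
  have hJu : J ≤ u' := by
    have h5 : (S.u : ℝ) ≤ q * u' + r0 := by exact_mod_cast hu1
    have h6 : (r0 : ℝ) + 1 ≤ q := by exact_mod_cast hr0
    have h7 : S.D < q * (u' + 1) := by
      have := hgood.u1
      nlinarith
    have h8 : S.D ^ (1 - ε2 / 4) < u' + 1 := by
      have h9 : S.D ^ (1 - ε2 / 4) * S.D ^ (ε2 / 4) = S.D := by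
        rw [← Real.rpow_add hD0]
        have : 1 - ε2 / 4 + ε2 / 4 = 1 := by ring
        rw [this, Real.rpow_one]
      by_contra h10
      push Not at h10
      have h11 : (q : ℝ) * (u' + 1) ≤ S.D ^ (ε2 / 4) * S.D ^ (1 - ε2 / 4) :=
        mul_le_mul hqD h10 (by positivity) (Real.rpow_nonneg hD0.le _)
      linarith
    have h9 : S.D ^ (1 - 3 * ε2) * 8 ≤ S.D ^ (1 - ε2 / 4) := by
      calc S.D ^ (1 - 3 * ε2) * 8 ≤ S.D ^ (1 - 3 * ε2) * S.D ^ (2 * ε2) := by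
            gcongr
            linarith
        _ = S.D ^ (1 - ε2) := by
            rw [← Real.rpow_add hD0]
            congr 1
            ring
        _ ≤ _ := Real.rpow_le_rpow_of_exponent_le hD1 (by linarith)
    have h10 : (J : ℝ) ≤ u' := by linarith
    exact_mod_cast h10
  have hu'1 : 1 ≤ u' := le_trans hJ0 hJu
  -- freezing
  have hfr := freeze hd hD1 hIG hf0.bdd (fun i x => (hf i.castSucc).bdd x) hwb hq1 hL21 hJ0 hu'1
    hu2 (η := η) (by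
      have h5 : (L2 : ℝ)⁻¹ ≤ 2 * q / ((lam * S.D) ^ d * S.D ^ (-(2 * ε2))) := by
        rw [inv_le_comm₀ hL20 (by positivity)]
        refine le_trans (le_of_eq ?_) hL2b
        rw [inv_div]
        field_simp
      have h6 : S.D ^ (d - 1) * S.D = S.D ^ d := by
        rw [← pow_succ, Nat.sub_add_cancel (by omega)]
      have h7 : S.D ^ (1 - 3 * ε2) = S.D * S.D ^ (-(3 * ε2)) := by
        rw [sub_eq_add_neg, Real.rpow_add hD0, Real.rpow_one]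
      calc 2 * (d * 3 ^ d * lam ^ d * (S.D ^ (d - 1) * J)) / L2
          = 2 * (d * 3 ^ d * lam ^ d * (S.D ^ (d - 1) * J)) * (L2 : ℝ)⁻¹ := by
            rw [div_eq_mul_inv]
        _ ≤ 2 * (d * 3 ^ d * lam ^ d * (S.D ^ (d - 1) * (2 * S.D ^ (1 - 3 * ε2)))) *
            (2 * q / ((lam * S.D) ^ d * S.D ^ (-(2 * ε2)))) := by gcongr
        _ = 8 * (d * 3 ^ d) * q * (S.D ^ (-(3 * ε2)) / S.D ^ (-(2 * ε2))) := by
            rw [h7, mul_pow, ← h6]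
            have h8 : (0 : ℝ) < S.D ^ (-(2 * ε2)) := Real.rpow_pos_of_pos hD0 _
            field_simp
            ring
        _ = 8 * (d * 3 ^ d) * q * S.D ^ (-ε2) := by
            rw [← Real.rpow_sub hD0]
            congr 2
            ring
        _ ≤ 8 * (d * 3 ^ d) * S.D ^ (ε2 / 4) * S.D ^ (-ε2) := by gcongr
        _ = (32 * (d * 3 ^ d)) * (S.D ^ (ε2 / 4) * S.D ^ (-ε2)) / 4 := by ring
        _ ≤ S.D ^ (ε2 / 2) * (S.D ^ (ε2 / 4) * S.D ^ (-ε2)) / 4 := by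
            gcongr
            linarith
        _ = S.D ^ (-(ε2 / 4)) / 4 := by
            rw [← Real.rpow_add hD0, ← Real.rpow_add hD0]
            congr 2
            ring
        _ ≤ η / 4 := by linarith) (by
      rw [← hst, ← hg]
      exact hu3)
  rw [← hst, ← hg] at hfr
  -- the dilated system
  have hqσ4 : (q : ℝ) ≤ S.D ^ σ4 :=
    hq2.trans (pow_upper hD1 hδ0 hδσ (by
      have := (hσc C3 (by omega)).2.2.1
      linarith))
  obtain ⟨hIG', hDl, hDu, hP⟩ := h4 S N lam hD4 (hIG.mono hx0c hD1) q r0 u' J hq1 hqσ4 hr0 hu1 hu2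
    hJu ((Real.rpow_le_rpow_of_exponent_le hD1 (by linarith)).trans hJa)
  have hD'h : S.D ^ (1 / 2 : ℝ) ≤ (dil S c q r0 u' J).D := by
    refine le_trans ?_ hDl
    rw [le_div_iff₀ (by positivity)]
    have h5 : (4 : ℝ) ≤ S.D ^ (1 / 4 : ℝ) := by
      have h6 := Real.rpow_le_rpow (by norm_num) hD256 (by norm_num : (0 : ℝ) ≤ 1 / 4)
      have h7 : (256 : ℝ) ^ (1 / 4 : ℝ) = 4 := by
        rw [show (256 : ℝ) = 4 ^ (4 : ℝ) by norm_num, ← Real.rpow_mul (by norm_num)]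
        norm_num
      rwa [h7] at h6
    calc S.D ^ (1 / 2 : ℝ) * (4 * q) ≤ S.D ^ (1 / 2 : ℝ) * (S.D ^ (1 / 4 : ℝ) * S.D ^ (ε2 / 4)) := by
          gcongr
      _ = S.D ^ (1 / 2 + (1 / 4 + ε2 / 4)) := by
          rw [← Real.rpow_add hD0, ← Real.rpow_add hD0]
      _ ≤ S.D ^ (1 : ℝ) := Real.rpow_le_rpow_of_exponent_le hD1 (by linarith)
      _ = S.D := Real.rpow_one _
  have hD'0 : 0 < (dil S c q r0 u' J).D := (Real.rpow_pos_of_pos hD0 _).trans_le hD'h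
  have hD'D : (dil S c q r0 u' J).D ≤ S.D := by
    refine hDu.trans ?_
    have : (1 : ℝ) ≤ q := by exact_mod_cast hq1
    exact div_le_self hD0.le this
  have hm2 : ((m : ℝ) + 2) * δ⁻¹ ≤ δ⁻¹ ^ (m + 3) := by
    rw [pow_succ δ⁻¹ (m + 2)]
    refine mul_le_mul_of_nonneg_right ?_ (by linarith)
    have h5 : ((m + 2 : ℕ) : ℝ) ≤ 2 ^ (m + 2) := by exact_mod_cast Nat.lt_two_pow_self.le
    push_cast at h5
    exact h5.trans (pow_le_pow_left₀ (by norm_num) hinv2 _)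
  obtain ⟨q', hq'1, hq'2, hq'3⟩ := h1 (dil S c q r0 u' J).init N (lam * q)
    (by
      refine le_trans (le_trans ?_ hD'h) le_rfl
      have h5 := Real.rpow_le_rpow (by positivity) hD1' (by norm_num : (0 : ℝ) ≤ 1 / 2)
      rw [← Real.rpow_natCast, ← Real.rpow_mul (by positivity)] at h5
      have h6 : ((2 : ℕ) : ℝ) * (1 / 2) = 1 := by norm_num
      rw [h6, Real.rpow_one] at h5
      exact (le_max_left D1 1).trans h5)
    hIG'.init (δ ^ nu)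
    (by
      calc (dil S c q r0 u' J).init.D ^ (-σ1) ≤ (S.D ^ (1 / 2 : ℝ)) ^ (-σ1) :=
            Real.rpow_le_rpow_of_nonpos (Real.rpow_pos_of_pos hD0 _) hD'h (by linarith)
        _ = S.D ^ (-(σ1 / 2)) := by
            rw [← Real.rpow_mul hD0.le]
            congr 1
            ring
        _ ≤ δ ^ nu := pow_lower hD1 hδσ (by
            have := (hσc nu (by omega)).1
            linarith))
    (hhalf _ (by omega))
    (by
      rw [← inv_pow]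
      push_cast
      calc (lam : ℝ) * q ≤ δ⁻¹ * δ⁻¹ ^ C3 := by gcongr
        _ = δ⁻¹ ^ (C3 + 1) := by ring
        _ ≤ _ := hpowi _ _ (by omega))
    (fun x => f0 x * g (x + (S.a c (Fin.last m) (q * u' + r0) : ZMod N)))
    (fun i => f i.castSucc)
    ((hf0.mul (hgA.shift _)).mono (by
      rw [← inv_pow]
      push_cast
      calc δ⁻¹ + ((m : ℝ) + 1) * δ⁻¹ = ((m : ℝ) + 2) * δ⁻¹ := by ring
        _ ≤ _ := hm2
        _ ≤ _ := hpowi _ _ (by omega)) hQ0 le_rfl)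
    (fun i => (hf i.castSucc).mono (by
      rw [← inv_pow]
      calc δ⁻¹ = δ⁻¹ ^ 1 := (pow_one _).symm
        _ ≤ _ := hpowi _ _ (by omega)) hQ0 le_rfl)
    (by
      refine le_trans ?_ hfr
      rw [hη]
      calc δ ^ nu ≤ δ ^ (2 * C3 + 1 + 2) := hpow _ _ (by omega)
        _ = δ ^ (2 * C3 + 1) * δ ^ 2 := pow_add _ _ _
        _ ≤ δ ^ (2 * C3 + 1) * (1 / 4) := by
            have h5 : δ ^ 2 ≤ 1 / 4 := by nlinarith
            have := pow_pos hδ0 (2 * C3 + 1)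
            gcongr
        _ = _ := by ring)
  refine ⟨q', hq'1, ?_, fun i hi L hL1 hL => ?_⟩
  · rw [pow_mul, inv_pow]
    exact hq'2
  · obtain ⟨i', rfl⟩ := Fin.exists_castSucc_eq.2 (ne_of_mem_erase hi)
    rw [pow_mul]
    refine hq'3 i' L hL1 (hL.trans ?_)
    show S.P i'.castSucc * S.D ^ (-ε) ≤
      (dil S c q r0 u' J).P i'.castSucc * (dil S c q r0 u' J).D ^ (-(ε / 2))
    have hP0 : 0 < S.P i'.castSucc := by
      refine lt_of_lt_of_le ?_ (hgood.P1 i'.castSucc)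
      exact mul_pos hQ0 (Real.rpow_pos_of_pos hD0 _)
    have h5 : S.D ^ (-(ε / 2)) ≤ (dil S c q r0 u' J).D ^ (-(ε / 2)) :=
      Real.rpow_le_rpow_of_nonpos hD'0 hD'D (by linarith)
    have h6 : S.D ^ (-ε) ≤ 4 ^ (-c i'.castSucc) * S.D ^ (-(ε / 2)) := by
      have h7 : S.D ^ (-ε) = S.D ^ (-(ε / 2)) * S.D ^ (-(ε / 2)) := by
        rw [← Real.rpow_add hD0]
        congr 1
        ring
      rw [h7]
      refine mul_le_mul_of_nonneg_right ?_ (Real.rpow_nonneg hD0.le _)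
      rw [Real.rpow_neg hD0.le, Real.rpow_neg (by norm_num)]
      exact inv_anti₀ (by positivity) ((hK4 _).trans hKD)
    calc S.P i'.castSucc * S.D ^ (-ε)
        ≤ S.P i'.castSucc * (4 ^ (-c i'.castSucc) * S.D ^ (-(ε / 2))) :=
          mul_le_mul_of_nonneg_left h6 hP0.le
      _ = S.P i'.castSucc * 4 ^ (-c i'.castSucc) * S.D ^ (-(ε / 2)) := by ring
      _ ≤ (dil S c q r0 u' J).P i'.castSucc * (dil S c q r0 u' J).D ^ (-(ε / 2)) :=
          mul_le_mul (hP i'.castSucc).1 h5 (Real.rpow_nonneg hD0.le _)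
            ((by positivity : (0 : ℝ) ≤ S.P i'.castSucc * 4 ^ (-c i'.castSucc)).trans
              (hP i'.castSucc).1)

end Low94

end

end Pool.Agent.Helper67.NX2
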