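import Pool.Agent.Helper94.NX2.LowAux

/-!
# NX2-A31, the two steps: lengthening and freezing
-/

set_option autoImplicit false

open Finset
open scoped BigOperators ComplexConjugate

namespace Pool.Agent.Helper67.NX2

open Pool.Agent.Helper57.NX

noncomputable section

namespace Low94

/-- the conclusion of `ar_top` -/
def ArC (m : ℕ) (c : Fin (m + 1) → ℝ) (s ε : ℝ) (x0 : ℝ) (C : ℕ) (σ D0 : ℝ) : Prop :=
    ∀ (S : Sys (m + 1)) (N : ℕ) [NeZero N] (lam : ℕ), D0 ≤ S.D → IG S c N x0 lam →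
    ∀ δ : ℝ, S.D ^ (-σ) ≤ δ → δ ≤ 1 / 2 → (lam : ℝ) ≤ δ⁻¹ →
    ∀ (p : ℕ) [NeZero p], p.Prime → N = S.Q * p → ∀ q : ℕ, 1 ≤ q → (q : ℝ) ≤ δ⁻¹ →
    ∀ X : ℝ, 1 ≤ X → S.D ^ (s - σ) ≤ X →
    ∀ (f0 : ZMod N → ℂ) (f : Fin m → ZMod N → ℂ), Adm δ⁻¹ S.Q f0 → (∀ i, Adm δ⁻¹ S.Q (f i)) →
    ∀ G : ZMod p → ℂ, Adm δ⁻¹ X (fun z => G ((q : ZMod p) * z)) →
    δ ≤ ‖form S c 1 f0 (Fin.snoc (α := fun _ => ZMod N → ℂ) f (blk S.Q G))‖ →
    ∀ L : ℕ, 1 ≤ L → (L : ℝ) * (S.Q * q) ≤ S.P (Fin.last m) * S.D ^ (-ε) →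
      δ ^ C ≤ nrm (A L (fun z : ZMod p => G ((q : ZMod p) * z)))

/-- the conclusion of `bc` -/
def BcC (m : ℕ) (C : ℕ) : Prop :=
  ∀ (c : Fin (m + 1) → ℝ) (d : ℕ) (_ : c (Fin.last m) = d)
    (S : Sys (m + 1)) (N : ℕ) [NeZero N] (lam : ℕ) (x : ℝ), 1 ≤ S.D → IG S c N x lam →
    ∀ δ : ℝ, 0 < δ → δ ≤ 1 / 2 → δ⁻¹ ^ C ≤ S.Q →
    ∀ (f0 : ZMod N → ℂ) (f : Fin m → ZMod N → ℂ) (g : ZMod N → ℂ),
    Adm δ⁻¹ S.Q f0 → (∀ i, Adm δ⁻¹ S.Q (f i)) → (∀ x, ‖g x‖ ≤ 1) →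
    δ ≤ ‖form S c 1 f0 (Fin.snoc (α := fun _ => ZMod N → ℂ) f g)‖ →
    ∃ e : ℕ, e < S.Q ∧ ∃ f0' : ZMod N → ℂ, Adm (δ⁻¹ ^ 3) S.Q f0' ∧
      δ ^ C ≤ ‖form S c 1 f0' (Fin.snoc (α := fun _ => ZMod N → ℂ) f
        (fun x => g ((S.Q * (x.val / S.Q) + e : ℕ) : ZMod N)))‖

theorem snoc_init {m : ℕ} {F : Type} (f : Fin (m + 1) → F) (g : F) :
    Function.update f (Fin.last m) g =
      Fin.snoc (α := fun _ => F) (fun i : Fin m => f i.castSucc) g := by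
  funext i
  refine Fin.lastCases ?_ (fun i => ?_) i
  · rw [Function.update_self, Fin.snoc_last]
  · rw [Function.update_of_ne (Fin.castSucc_lt_last i).ne, Fin.snoc_castSucc]

/-- lengthening: a top function which is smooth along progressions and has small averages gives a
small form -/
theorem long {m : ℕ} {c : Fin (m + 1) → ℝ} {d : ℕ} (hd : c (Fin.last m) = d) {s ε x2 : ℝ}
    {C2 : ℕ} {σ2 D2 : ℝ} (har : ArC m c s ε x2 C2 σ2 D2) {Cb : ℕ} (hbc : BcC m Cb)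
    {S : Sys (m + 1)} {N : ℕ} [NeZero N] {lam : ℕ} (hD2 : D2 ≤ S.D) (hD1 : 1 ≤ S.D)
    (hIG : IG S c N x2 lam) {δb δc : ℝ} (hb0 : 0 < δb) (hb1 : δb ≤ 1 / 2)
    (hbQ : δb⁻¹ ^ Cb ≤ S.Q) (hc0 : S.D ^ (-σ2) ≤ δc) (hc1 : δc ≤ 1 / 2)
    (hcl : (lam : ℝ) ≤ δc⁻¹) (hcb : δc ≤ δb ^ Cb) (hcb3 : δb⁻¹ ^ 3 ≤ δc⁻¹) {q : ℕ} (hq : 1 ≤ q)
    (hqc : (q : ℝ) ≤ δc⁻¹) {L1 : ℕ} (hL1 : 1 ≤ L1) (hL1s : S.D ^ (s - σ2) ≤ (L1 : ℝ))
    {f0 : ZMod N → ℂ} {f : Fin m → ZMod N → ℂ} {g : ZMod N → ℂ} (hf0 : Adm δb⁻¹ S.Q f0)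
    (hf : ∀ i, Adm δb⁻¹ S.Q (f i)) (hg : ∀ x, ‖g x‖ ≤ 1)
    (hl : ∀ x, ‖g (x + ((S.Q * q : ℕ) : ZMod N)) - g x‖ ≤ 2 / L1)
    (hform : δb ≤ ‖form S c 1 f0 (Fin.snoc (α := fun _ => ZMod N → ℂ) f g)‖) {L : ℕ} (hL : 1 ≤ L)
    (hLP : (L : ℝ) * (S.Q * q) ≤ S.P (Fin.last m) * S.D ^ (-ε)) {B : ℝ}
    (hB : ∀ x, ‖Aq (S.Q * q) L g x‖ ≤ B) : δc ^ C2 ≤ B := by
  have hD0 : 0 < S.D := by linarith
  have hδc0 : 0 < δc := (Real.rpow_pos_of_pos hD0 _).trans_le hc0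
  have hQ0 : (0 : ℝ) < S.Q := (Real.rpow_pos_of_pos hD0 _).trans_le hIG.good.Q1
  have hQ1 : 1 ≤ S.Q := by exact_mod_cast Nat.cast_pos.1 hQ0
  obtain ⟨p, hp, hN⟩ := hIG.prime
  haveI : NeZero p := ⟨hp.pos.ne'⟩
  obtain ⟨e, he, f0', hf0', hform'⟩ := hbc c d hd S N lam x2 hD1 hIG δb hb0 hb1 hbQ f0 f g hf0 hf
    hg hform
  have h2c : (2 : ℝ) ≤ δc⁻¹ := by
    rw [le_inv_comm₀ (by norm_num) hδc0]
    linarith
  have hbi : (1 : ℝ) ≤ δb⁻¹ := by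
    rw [one_le_inv₀ hb0]
    linarith
  have hb3 : δb⁻¹ ≤ δc⁻¹ := by
    refine le_trans ?_ hcb3
    calc δb⁻¹ = δb⁻¹ ^ 1 := (pow_one _).symm
      _ ≤ δb⁻¹ ^ 3 := pow_le_pow_right₀ hbi (by norm_num)
  have hL1' : (1 : ℝ) ≤ L1 := by exact_mod_cast hL1
  have hGm := G_mul (q := q) hN g e
  have h1 := har S N lam hD2 hIG δc hc0 hc1 hcl p hp hN q hq hqc L1 hL1' hL1s f0' f
    (hf0'.mono hcb3 hQ0 le_rfl) (fun i => (hf i).mono hb3 hQ0 le_rfl)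
    (fun y : ZMod p => g ((S.Q * y.val + e : ℕ) : ZMod N))
    (by
      rw [hGm]
      exact (fib_adm hN hg hl e).mono h2c (by linarith) le_rfl)
    (by
      rw [blk_G hQ1 hN]
      exact hcb.trans hform') L hL hLP
  refine h1.trans ?_
  rw [hGm]
  refine Finset.expect_le Finset.univ_nonempty fun z _ => ?_
  rw [A_fib hN]
  exact hB _

/-- freezing the top function on a window of a residue class -/
theorem freeze {m : ℕ} {c : Fin (m + 1) → ℝ} {d : ℕ} (hd : c (Fin.last m) = d)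
    {S : Sys (m + 1)} {N : ℕ} [NeZero N] {lam : ℕ} {x : ℝ} (hD1 : 1 ≤ S.D)
    (hIG : IG S c N x lam) {f0 : ZMod N → ℂ} {f : Fin m → ZMod N → ℂ} {w : ZMod N → ℂ}
    (hf0 : ∀ x, ‖f0 x‖ ≤ 1) (hf : ∀ i x, ‖f i x‖ ≤ 1) (hw : ∀ x, ‖w x‖ ≤ 1) {q L2 J r0 u' : ℕ}
    (hq : 1 ≤ q) (hL2 : 1 ≤ L2) (hJ : 1 ≤ J) (hu' : 1 ≤ u')
    (hwin : q * (u' + J) + r0 ≤ S.u + S.T) {η : ℝ}
    (hη : 2 * (d * 3 ^ d * lam ^ d * (S.D ^ (d - 1) * J)) / L2 ≤ η / 4)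
    (hform : η / 2 ≤ ‖𝔼 j ∈ Ico u' (u' + J), 𝔼 x, f0 x * ∏ i : Fin (m + 1),
      (Fin.snoc (α := fun _ => ZMod N → ℂ) f (Aq (S.Q * q) L2 w) i)
        (x + (S.a c i (q * j + r0) : ZMod N))‖) :
    η / 4 ≤ ‖form (dil S c q r0 u' J).init (fun i => c i.castSucc) 1
      (fun x => f0 x * Aq (S.Q * q) L2 w (x + (S.a c (Fin.last m) (q * u' + r0) : ZMod N))) f‖ := by
  have hD0 : 0 < S.D := by linarith
  set g : ZMod N → ℂ := Aq (S.Q * q) L2 w with hg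
  have hgb : ∀ x, ‖g x‖ ≤ 1 := norm_Aq_le hw _ _
  have hL20 : (0 : ℝ) < L2 := by exact_mod_cast hL2
  have hη0 : 0 ≤ η / 4 := le_trans (by positivity) hη
  -- the frozen form
  have e1 : form (dil S c q r0 u' J).init (fun i => c i.castSucc) 1
      (fun x => f0 x * g (x + (S.a c (Fin.last m) (q * u' + r0) : ZMod N))) f =
      𝔼 j ∈ Ico u' (u' + J), 𝔼 x : ZMod N, f0 x *
        g (x + (S.a c (Fin.last m) (q * u' + r0) : ZMod N)) *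
        ∏ i : Fin m, f i (x + (S.a c i.castSucc (q * j + r0) : ZMod N)) := by
    unfold form
    show (𝔼 j ∈ Ico u' (u' + J), _) = _
    refine Finset.expect_congr rfl fun j _ => ?_
    rw [Pi.one_apply, one_mul]
    refine Finset.expect_congr rfl fun x _ => ?_
    congr 1
    refine Finset.prod_congr rfl fun i _ => ?_
    have h1 := dil_a S c q r0 u' J j hq hu' hD0 hIG.good.ρ0 i.castSucc
    have h2 : (dil S c q r0 u' J).init.a (fun i => c i.castSucc) i j =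
        (dil S c q r0 u' J).a c i.castSucc j := rfl
    rw [h2, h1]
  rw [e1]
  have e2 : ∀ j x, (f0 x * ∏ i : Fin (m + 1),
      (Fin.snoc (α := fun _ => ZMod N → ℂ) f g i)
        (x + (S.a c i (q * j + r0) : ZMod N))) =
      f0 x * g (x + (S.a c (Fin.last m) (q * j + r0) : ZMod N)) *
        ∏ i : Fin m, f i (x + (S.a c i.castSucc (q * j + r0) : ZMod N)) := by
    intro j x
    rw [Fin.prod_univ_castSucc]
    simp only [Fin.snoc_castSucc, Fin.snoc_last]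
    ring
  simp_rw [e2] at hform
  have e3 : ‖(𝔼 j ∈ Ico u' (u' + J), 𝔼 x : ZMod N, f0 x *
        g (x + (S.a c (Fin.last m) (q * j + r0) : ZMod N)) *
        ∏ i : Fin m, f i (x + (S.a c i.castSucc (q * j + r0) : ZMod N))) -
      𝔼 j ∈ Ico u' (u' + J), 𝔼 x : ZMod N, f0 x *
        g (x + (S.a c (Fin.last m) (q * u' + r0) : ZMod N)) *
        ∏ i : Fin m, f i (x + (S.a c i.castSucc (q * j + r0) : ZMod N))‖ ≤ η / 4 := by
    rw [← Finset.expect_sub_distrib]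
    refine norm_expect_le_of5 _ _ hη0 fun j hj => ?_
    rw [← Finset.expect_sub_distrib]
    refine norm_expect_le_of5 _ _ hη0 fun x _ => ?_
    rw [← sub_mul, ← mul_sub, norm_mul, norm_mul]
    have hj' := Finset.mem_Ico.1 hj
    obtain ⟨τ, h1, h2⟩ := a_diff hIG hD1 hd (q := q) (k0 := q * u' + r0) (j := j - u') (J := J)
      (by omega) (by
        have : q * (u' + J) = q * u' + q * J := mul_add _ _ _
        omega)
    have h3 : q * u' + r0 + q * (j - u') = q * j + r0 := by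
      have h4 : q * j = q * u' + q * (j - u') := by
        rw [← mul_add]
        congr 1
        omega
      omega
    rw [h3] at h1
    have h5 : ‖g (x + (S.a c (Fin.last m) (q * j + r0) : ZMod N)) -
        g (x + (S.a c (Fin.last m) (q * u' + r0) : ZMod N))‖ ≤ η / 4 := by
      have h6 := Aq_lipschitz hw (S.Q * q) L2 hL2
        (x + (S.a c (Fin.last m) (q * u' + r0) : ZMod N)) τ
      rw [h1]
      have h7 : x + (((S.a c (Fin.last m) (q * u' + r0) + ((S.Q * q : ℕ) : ℤ) * τ : ℤ)) : ZMod N) =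
          x + (S.a c (Fin.last m) (q * u' + r0) : ZMod N) +
            (((S.Q * q : ℕ) : ℤ) * τ : ℤ) := by
        push_cast
        ring
      rw [h7]
      refine h6.trans (le_trans ?_ hη)
      gcongr
    have h8 : ‖∏ i : Fin m, f i (x + (S.a c i.castSucc (q * j + r0) : ZMod N))‖ ≤ 1 := by
      rw [norm_prod]
      exact Finset.prod_le_one (fun i _ => norm_nonneg _) fun i _ => hf i _
    calc ‖f0 x‖ * ‖g (x + (S.a c (Fin.last m) (q * j + r0) : ZMod N)) -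
        g (x + (S.a c (Fin.last m) (q * u' + r0) : ZMod N))‖ *
        ‖∏ i : Fin m, f i (x + (S.a c i.castSucc (q * j + r0) : ZMod N))‖
        ≤ 1 * (η / 4) * 1 := mul_le_mul (mul_le_mul (hf0 x) h5 (norm_nonneg _) zero_le_one) h8
          (norm_nonneg _) (by positivity)
      _ = η / 4 := by ring
  have e4 := norm_sub_norm_le (𝔼 j ∈ Ico u' (u' + J), 𝔼 x : ZMod N, f0 x *
        g (x + (S.a c (Fin.last m) (q * j + r0) : ZMod N)) *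
        ∏ i : Fin m, f i (x + (S.a c i.castSucc (q * j + r0) : ZMod N)))
      (𝔼 j ∈ Ico u' (u' + J), 𝔼 x : ZMod N, f0 x *
        g (x + (S.a c (Fin.last m) (q * u' + r0) : ZMod N)) *
        ∏ i : Fin m, f i (x + (S.a c i.castSucc (q * j + r0) : ZMod N)))
  linarith

end Low94

end

end Pool.Agent.Helper67.NX2
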